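import Mathlib

/-!
Isometric strongly continuous representations of a locally compact group on a Banach space and
their integrated form.
-/

set_option linter.unusedSectionVars false

open MeasureTheory Topology Filter
open scoped ENNReal

namespace Pool.Agent.Helper87_Segal

variable {G : Type*} [Group G] [TopologicalSpace G]

/-- Isometric strongly continuous representation of `G` on `E`. -/
structure IsoRep (G : Type*) [Group G] [TopologicalSpace G]
    (E : Type*) [NormedAddCommGroup E] [NormedSpace ℂ E] where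
  T : G → E →ₗᵢ[ℂ] E
  T_mul : ∀ g h e, T (g * h) e = T g (T h e)
  T_cont : ∀ e, Continuous fun g => T g e

namespace IsoRep

variable {E : Type*} [NormedAddCommGroup E] [NormedSpace ℂ E] (ρ : IsoRep G E)

theorem T_one (e : E) : ρ.T 1 e = e := by
  have h := ρ.T_mul 1 1 e
  rw [mul_one] at h
  exact ((ρ.T 1).injective h).symm

theorem T_inv_T (g : G) (e : E) : ρ.T g⁻¹ (ρ.T g e) = e := by
  rw [← ρ.T_mul, inv_mul_cancel, ρ.T_one]

theorem T_T_inv (g : G) (e : E) : ρ.T g (ρ.T g⁻¹ e) = e := by
  rw [← ρ.T_mul, mul_inv_cancel, ρ.T_one]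

theorem norm_T (g : G) (e : E) : ‖ρ.T g e‖ = ‖e‖ := (ρ.T g).norm_map e

/-- joint continuity -/
theorem continuous_T₂ : Continuous fun p : G × E => ρ.T p.1 p.2 := by
  rw [continuous_iff_continuousAt]
  rintro ⟨g, e⟩
  rw [ContinuousAt, tendsto_iff_norm_sub_tendsto_zero]
  have h1 : Tendsto (fun p : G × E => ‖p.2 - e‖ + ‖ρ.T p.1 e - ρ.T g e‖) (𝓝 (g, e)) (𝓝 0) := by
    have ha : Tendsto (fun p : G × E => ‖p.2 - e‖) (𝓝 (g, e)) (𝓝 0) := by
      have : Continuous fun p : G × E => ‖p.2 - e‖ := by fun_prop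
      have h := this.tendsto (g, e)
      simpa using h
    have hb : Tendsto (fun p : G × E => ‖ρ.T p.1 e - ρ.T g e‖) (𝓝 (g, e)) (𝓝 0) := by
      have : Continuous fun p : G × E => ‖ρ.T p.1 e - ρ.T g e‖ :=
        (((ρ.T_cont e).comp continuous_fst).sub continuous_const).norm
      have h := this.tendsto (g, e)
      simpa using h
    simpa using ha.add hb
  refine squeeze_zero (fun _ => norm_nonneg _) (fun p => ?_) h1
  have : ρ.T p.1 p.2 - ρ.T g e = ρ.T p.1 (p.2 - e) + (ρ.T p.1 e - ρ.T g e) := by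
    rw [map_sub]; abel
  rw [this]
  refine (norm_add_le _ _).trans ?_
  rw [ρ.norm_T]

section Integrated

variable [IsTopologicalGroup G] [LocallyCompactSpace G] [SecondCountableTopology G]
  [MeasurableSpace G] [BorelSpace G] {μ : Measure G} [μ.IsHaarMeasure]

theorem integrable_smul_T (f : Lp ℂ 1 μ) (e : E) :
    Integrable (fun h => f h • ρ.T h e) μ := by
  have hf : Integrable f μ := L1.integrable_coeFn f
  refine Integrable.mono' (hf.norm.mul_const ‖e‖) ?_ ?_
  · exact hf.1.smul (ρ.T_cont e).aestronglyMeasurable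
  · filter_upwards with h
    rw [norm_smul, ρ.norm_T]

variable [CompleteSpace E]

/-- The integrated form `π(f) e = ∫ f(h) T_h e dh`. -/
noncomputable def integ (f : Lp ℂ 1 μ) (e : E) : E := ∫ h, f h • ρ.T h e ∂μ

theorem integ_add (f f' : Lp ℂ 1 μ) (e : E) : ρ.integ (f + f') e = ρ.integ f e + ρ.integ f' e := by
  unfold integ
  rw [← integral_add (ρ.integrable_smul_T f e) (ρ.integrable_smul_T f' e)]
  refine integral_congr_ae ?_
  filter_upwards [Lp.coeFn_add f f'] with h hh
  rw [hh, Pi.add_apply, add_smul]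

theorem integ_smul (c : ℂ) (f : Lp ℂ 1 μ) (e : E) : ρ.integ (c • f) e = c • ρ.integ f e := by
  unfold integ
  rw [← integral_smul]
  refine integral_congr_ae ?_
  filter_upwards [Lp.coeFn_smul c f] with h hh
  rw [hh, Pi.smul_apply, smul_eq_mul, mul_smul]

theorem integ_add_right (f : Lp ℂ 1 μ) (e e' : E) :
    ρ.integ f (e + e') = ρ.integ f e + ρ.integ f e' := by
  unfold integ
  rw [← integral_add (ρ.integrable_smul_T f e) (ρ.integrable_smul_T f e')]
  simp only [map_add, smul_add]

theorem integ_smul_right (c : ℂ) (f : Lp ℂ 1 μ) (e : E) :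
    ρ.integ f (c • e) = c • ρ.integ f e := by
  unfold integ
  rw [← integral_smul]
  simp only [map_smul]
  congr 1
  ext h
  rw [smul_comm]

theorem norm_integ_le (f : Lp ℂ 1 μ) (e : E) : ‖ρ.integ f e‖ ≤ ‖f‖ * ‖e‖ := by
  unfold integ
  refine (norm_integral_le_integral_norm _).trans ?_
  have : ∀ h, ‖f h • ρ.T h e‖ = ‖f h‖ * ‖e‖ := fun h => by rw [norm_smul, ρ.norm_T]
  simp only [this]
  rw [integral_mul_const, L1.norm_eq_integral_norm]

/-- The integrated form as a continuous bilinear map. -/
noncomputable def integL : Lp ℂ 1 μ →L[ℂ] E →L[ℂ] E :=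
  LinearMap.mkContinuous₂
    (LinearMap.mk₂ ℂ (ρ.integ (μ := μ)) ρ.integ_add (fun c f e => ρ.integ_smul c f e)
      ρ.integ_add_right (fun c f e => ρ.integ_smul_right c f e)) 1
    (fun f e => by simpa using ρ.norm_integ_le f e)

@[simp] theorem integL_apply (f : Lp ℂ 1 μ) (e : E) : ρ.integL (μ := μ) f e = ρ.integ f e := rfl

/-- Intertwining operators commute with the integrated form. -/
theorem map_integ {E' : Type*} [NormedAddCommGroup E'] [NormedSpace ℂ E'] [CompleteSpace E']
    (ρ' : IsoRep G E') (φ : E →L[ℂ] E') (hφ : ∀ g e, φ (ρ.T g e) = ρ'.T g (φ e))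
    (f : Lp ℂ 1 μ) (e : E) : φ (ρ.integ f e) = ρ'.integ f (φ e) := by
  unfold integ
  rw [← ContinuousLinearMap.integral_comp_comm φ (ρ.integrable_smul_T f e)]
  simp only [map_smul, hφ]

end Integrated

end IsoRep

section Translation

variable [IsTopologicalGroup G] [LocallyCompactSpace G] [SecondCountableTopology G]
  [MeasurableSpace G] [BorelSpace G] (μ : Measure G) [μ.IsHaarMeasure]

/-- Left translation on `L¹(G)`: `(L_g f)(x) = f(g⁻¹ x)`. -/
noncomputable def leftTranslate (g : G) (f : Lp ℂ 1 μ) : Lp ℂ 1 μ :=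
  Lp.compMeasurePreserving (fun x => g⁻¹ * x) (measurePreserving_mul_left μ g⁻¹) f

theorem leftTranslate_coeFn (g : G) (f : Lp ℂ 1 μ) :
    leftTranslate μ g f =ᵐ[μ] fun x => f (g⁻¹ * x) :=
  Lp.coeFn_compMeasurePreserving f _

/-- The left regular representation on `L¹(G)`. -/
noncomputable def leftRep : IsoRep G (Lp ℂ 1 μ) where
  T g := Lp.compMeasurePreservingₗᵢ ℂ (fun x => g⁻¹ * x) (measurePreserving_mul_left μ g⁻¹)
  T_mul g h f := by
    have := Lp.compMeasurePreserving_comp_apply f (measurePreserving_mul_left μ h⁻¹)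
      (measurePreserving_mul_left μ g⁻¹)
    have h2 : ((fun x => h⁻¹ * x) ∘ fun x => g⁻¹ * x) = fun x => (g * h)⁻¹ * x := by
      ext x; simp [mul_assoc]
    change Lp.compMeasurePreserving (fun x => (g * h)⁻¹ * x) _ f =
      Lp.compMeasurePreserving (fun x => g⁻¹ * x) _
        (Lp.compMeasurePreserving (fun x => h⁻¹ * x) _ f)
    rw [← this]
    simp only [h2]
  T_cont f := by
    have hc : Continuous (fun g : G => (ContinuousMap.mk (fun x : G => g⁻¹ * x) (by fun_prop))) := by
      refine ContinuousMap.continuous_of_continuous_uncurry _ ?_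
      simp only [Function.uncurry_def, ContinuousMap.coe_mk]
      fun_prop
    exact Continuous.compMeasurePreservingLp (μ := μ) (ν := μ) (f := fun _ : G => f)
      continuous_const hc (fun g => measurePreserving_mul_left μ g⁻¹) ENNReal.one_ne_top

theorem leftRep_T (g : G) (f : Lp ℂ 1 μ) : (leftRep μ).T g f = leftTranslate μ g f := rfl

variable {μ}
variable {E : Type*} [NormedAddCommGroup E] [NormedSpace ℂ E] (ρ : IsoRep G E)

theorem IsoRep.integ_leftTranslate [CompleteSpace E] (g : G) (f : Lp ℂ 1 μ) (e : E) :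
    ρ.integ (leftTranslate μ g f) e = ρ.T g (ρ.integ f e) := by
  have h1 : ρ.integ (leftTranslate μ g f) e = ∫ h, f (g⁻¹ * h) • ρ.T h e ∂μ := by
    unfold IsoRep.integ
    refine integral_congr_ae ?_
    filter_upwards [leftTranslate_coeFn μ g f] with h hh
    rw [hh]
  rw [h1, ← integral_mul_left_eq_self _ g]
  simp only [inv_mul_cancel_left, ρ.T_mul]
  have h2 := ContinuousLinearMap.integral_comp_comm (ρ.T g).toContinuousLinearMap
    (ρ.integrable_smul_T f e)
  simp only [LinearIsometry.coe_toContinuousLinearMap, map_smul] at h2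
  exact h2

/-- The convolution product on `L¹(G)` as a Bochner integral. -/
noncomputable def conv (f g : Lp ℂ 1 μ) : Lp ℂ 1 μ := (leftRep μ).integ f g

theorem IsoRep.integ_conv [CompleteSpace E] (f g : Lp ℂ 1 μ) (e : E) :
    ρ.integ (conv f g) e = ρ.integ f (ρ.integ g e) := by
  have h := (leftRep μ).map_integ ρ ((ρ.integL (μ := μ)).flip e)
    (fun g' f' => by
      simp only [ContinuousLinearMap.flip_apply, IsoRep.integL_apply, leftRep_T]
      exact ρ.integ_leftTranslate g' f' e) f g
  simpa [conv] using h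

end Translation

end Pool.Agent.Helper87_Segal
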