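import Mathlib
import Pool.Agent.Helper87_Segal.Rep

/-!
The pointwise formula for the convolution product.
-/

set_option linter.unusedSectionVars false

open MeasureTheory Topology Filter
open scoped ENNReal

namespace Pool.Agent.Helper87_Segal

section Pairing

variable {α : Type*} [MeasurableSpace α] {μ : Measure α}

theorem integrable_mul_bdd (f : Lp ℂ 1 μ) {φ : α → ℂ} (hφ : Measurable φ) (hb : ∀ x, ‖φ x‖ ≤ 1) :
    Integrable (fun x => f x * φ x) μ :=
  (L1.integrable_coeFn f).mul_bdd (c := 1) hφ.aestronglyMeasurable (by filter_upwards with x using hb x)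

/-- Integration against a bounded measurable function, as a continuous functional on `L¹`. -/
noncomputable def pairing (μ : Measure α) (φ : α → ℂ) (hφ : Measurable φ) (hb : ∀ x, ‖φ x‖ ≤ 1) :
    Lp ℂ 1 μ →L[ℂ] ℂ :=
  LinearMap.mkContinuous
    { toFun := fun f => ∫ x, f x * φ x ∂μ
      map_add' := fun f g => by
        rw [← integral_add (integrable_mul_bdd f hφ hb) (integrable_mul_bdd g hφ hb)]
        refine integral_congr_ae ?_
        filter_upwards [Lp.coeFn_add f g] with x hx
        rw [hx, Pi.add_apply, add_mul]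
      map_smul' := fun c f => by
        rw [RingHom.id_apply, ← integral_smul]
        refine integral_congr_ae ?_
        filter_upwards [Lp.coeFn_smul c f] with x hx
        rw [hx, Pi.smul_apply, smul_eq_mul, smul_eq_mul, mul_assoc] } 1
    (fun f => by
      simp only [LinearMap.coe_mk, AddHom.coe_mk, one_mul]
      refine (norm_integral_le_integral_norm _).trans ?_
      rw [L1.norm_eq_integral_norm]
      refine integral_mono (integrable_mul_bdd f hφ hb).norm (L1.integrable_coeFn f).norm ?_
      intro x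
      simp only [norm_mul]
      exact mul_le_of_le_one_right (norm_nonneg _) (hb x))

theorem pairing_apply (φ : α → ℂ) (hφ : Measurable φ) (hb : ∀ x, ‖φ x‖ ≤ 1) (f : Lp ℂ 1 μ) :
    pairing μ φ hφ hb f = ∫ x, f x * φ x ∂μ := rfl

theorem norm_pairing_le (φ : α → ℂ) (hφ : Measurable φ) (hb : ∀ x, ‖φ x‖ ≤ 1) (f : Lp ℂ 1 μ) :
    ‖pairing μ φ hφ hb f‖ ≤ ‖f‖ := by
  have := (pairing μ φ hφ hb).le_of_opNorm_le (LinearMap.mkContinuous_norm_le _ zero_le_one _) f
  simpa using this

/-- A Bochner integral in `L¹` is given by the pointwise integral. -/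
theorem coeFn_integral_L1 {Ω : Type*} [MeasurableSpace Ω] {ν : Measure Ω} [SFinite ν] [SigmaFinite μ]
    (F : Ω → Lp ℂ 1 μ) (hF : Integrable F ν) (f : Ω × α → ℂ) (hf : Integrable f (ν.prod μ))
    (hFf : ∀ᵐ ω ∂ν, (F ω : α → ℂ) =ᵐ[μ] fun x => f (ω, x)) :
    ((∫ ω, F ω ∂ν : Lp ℂ 1 μ) : α → ℂ) =ᵐ[μ] fun x => ∫ ω, f (ω, x) ∂ν := by
  have hint : Integrable (fun x => ∫ ω, f (ω, x) ∂ν) μ := hf.integral_prod_right
  refine Integrable.ae_eq_of_forall_setIntegral_eq _ _ (L1.integrable_coeFn _) hint ?_
  intro s hs hμs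
  set φ : α → ℂ := s.indicator (fun _ => (1 : ℂ)) with hφdef
  have hφ : Measurable φ := measurable_const.indicator hs
  have hb : ∀ x, ‖φ x‖ ≤ 1 := by
    intro x
    by_cases hx : x ∈ s <;> simp [hφdef, hx]
  have key : ∀ g : α → ℂ, ∫ x in s, g x ∂μ = ∫ x, g x * φ x ∂μ := by
    intro g
    rw [← integral_indicator hs]
    congr 1
    ext x
    by_cases hx : x ∈ s <;> simp [hφdef, hx]
  rw [key, key, ← pairing_apply φ hφ hb, ← ContinuousLinearMap.integral_comp_comm _ hF]
  have h1 : ∫ ω, pairing μ φ hφ hb (F ω) ∂ν = ∫ ω, ∫ x, f (ω, x) * φ x ∂μ ∂ν := by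
    refine integral_congr_ae ?_
    filter_upwards [hFf] with ω hω
    rw [pairing_apply]
    refine integral_congr_ae ?_
    filter_upwards [hω] with x hx
    rw [hx]
  rw [h1, integral_integral_swap]
  · refine integral_congr_ae ?_
    filter_upwards with x
    exact (integral_mul_const _ _)
  · have : Measurable fun p : Ω × α => φ p.2 := hφ.comp measurable_snd
    exact hf.mul_bdd (c := 1) this.aestronglyMeasurable (by filter_upwards with p using hb _)

end Pairing

section Conv

variable {G : Type*} [Group G] [TopologicalSpace G] [IsTopologicalGroup G] [LocallyCompactSpace G]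
  [SecondCountableTopology G] [MeasurableSpace G] [BorelSpace G] {μ : Measure G} [μ.IsHaarMeasure]

theorem integrable_conv_kernel (f g : Lp ℂ 1 μ) :
    Integrable (fun p : G × G => f p.1 * g (p.1⁻¹ * p.2)) (μ.prod μ) := by
  have h := (L1.integrable_coeFn f).mul_prod (L1.integrable_coeFn g)
  exact (measurePreserving_prod_inv_mul μ μ).integrable_comp_of_integrable h

/-- `(f * g)(x) = ∫ f(y) g(y⁻¹ x) dy` for almost every `x`. -/
theorem conv_coeFn (f g : Lp ℂ 1 μ) :
    (conv f g : G → ℂ) =ᵐ[μ] fun x => ∫ y, f y * g (y⁻¹ * x) ∂μ := by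
  refine coeFn_integral_L1 (fun y => f y • (leftRep μ).T y g) ((leftRep μ).integrable_smul_T f g)
    (fun p : G × G => f p.1 * g (p.1⁻¹ * p.2)) (integrable_conv_kernel f g) ?_
  filter_upwards with y
  filter_upwards [Lp.coeFn_smul (f y) ((leftRep μ).T y g), leftTranslate_coeFn μ y g] with x hx hx2
  rw [hx, Pi.smul_apply, leftRep_T, hx2, smul_eq_mul]

end Conv

end Pool.Agent.Helper87_Segal
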