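import Mathlib
import Pool.Agent.Helper87_Segal.Pointwise

/-!
Segal algebras on a locally compact group, their convolution product, Banach bimodules over them,
derivations and approximate amenability.
-/

set_option linter.unusedSectionVars false

open MeasureTheory Topology Filter
open scoped ENNReal

namespace Pool.Agent.Helper87_Segal

universe u v

variable {G : Type u} [Group G] [TopologicalSpace G] [IsTopologicalGroup G] [LocallyCompactSpace G]
  [T2Space G] [SecondCountableTopology G] [MeasurableSpace G] [BorelSpace G]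

/-- A Segal algebra on the (second countable) locally compact group `G` with left Haar measure `μ`:
a dense linear subspace `carrier` of `L¹(G)` with a norm `nrm`, complete for this norm, with
`‖f‖₁ ≤ nrm f`, closed under left translations `(L_g f)(x) = f(g⁻¹ x)`, with `nrm (L_g f) = nrm f`
and with `g ↦ L_g f` continuous from `G` into `(carrier, nrm)`. -/
structure SegalAlgebra (μ : Measure G) [μ.IsHaarMeasure] where
  carrier : Submodule ℂ (Lp ℂ 1 μ)
  dense' : Dense (carrier : Set (Lp ℂ 1 μ))
  nrm : carrier → ℝ
  nrm_add_le : ∀ f g : carrier, nrm (f + g) ≤ nrm f + nrm g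
  nrm_smul : ∀ (c : ℂ) (f : carrier), nrm (c • f) = ‖c‖ * nrm f
  norm_le_nrm : ∀ f : carrier, ‖(f : Lp ℂ 1 μ)‖ ≤ nrm f
  complete : ∀ u : ℕ → carrier,
    (∀ ε : ℝ, 0 < ε → ∃ N : ℕ, ∀ m ≥ N, ∀ n ≥ N, nrm (u m - u n) < ε) →
      ∃ f : carrier, Tendsto (fun n => nrm (u n - f)) atTop (𝓝 0)
  translate_mem : ∀ (g : G) (f : Lp ℂ 1 μ), f ∈ carrier → leftTranslate μ g f ∈ carrier
  nrm_translate : ∀ (g : G) (f : carrier),
    nrm ⟨leftTranslate μ g f, translate_mem g f f.2⟩ = nrm f
  tendsto_translate : ∀ (f : carrier) (g₀ : G),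
    Tendsto (fun g : G => nrm (⟨leftTranslate μ g f, translate_mem g f f.2⟩ -
      ⟨leftTranslate μ g₀ f, translate_mem g₀ f f.2⟩)) (𝓝 g₀) (𝓝 0)

namespace SegalAlgebra

variable {μ : Measure G} [μ.IsHaarMeasure] (S : SegalAlgebra μ)

/-- The Segal algebra is proper (nontrivial) if it is not all of `L¹(G)`. -/
def IsProper : Prop := S.carrier ≠ ⊤

/-- The Banach space `(carrier, nrm)`. -/
def Elem : Type _ := S.carrier

noncomputable instance : AddCommGroup S.Elem := inferInstanceAs (AddCommGroup S.carrier)

noncomputable instance : Module ℂ S.Elem := inferInstanceAs (Module ℂ S.carrier)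

/-- The inclusion of the Segal algebra in `L¹(G)`. -/
noncomputable def toL1 : S.Elem →ₗ[ℂ] Lp ℂ 1 μ := S.carrier.subtype

theorem toL1_injective : Function.Injective S.toL1 := Subtype.val_injective

theorem nrm_zero : S.nrm 0 = 0 := by
  have := S.nrm_smul 0 0
  simpa using this

theorem nrm_neg (f : S.carrier) : S.nrm (-f) = S.nrm f := by
  have := S.nrm_smul (-1) f
  simpa using this

noncomputable instance : NormedAddCommGroup S.Elem :=
  AddGroupNorm.toNormedAddCommGroup
    { toFun := S.nrm
      map_zero' := S.nrm_zero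
      add_le' := S.nrm_add_le
      neg' := S.nrm_neg
      eq_zero_of_map_eq_zero' := fun f hf => by
        have h := S.norm_le_nrm f
        rw [hf] at h
        have h2 := norm_le_zero_iff.mp h
        exact Subtype.ext h2 }

theorem norm_def (f : S.Elem) : ‖f‖ = S.nrm f := rfl

noncomputable instance : NormedSpace ℂ S.Elem where
  norm_smul_le c f := (S.nrm_smul c f).le

instance : CompleteSpace S.Elem := by
  refine Metric.complete_of_cauchySeq_tendsto fun u hu => ?_
  obtain ⟨f, hf⟩ := S.complete u (fun ε hε => by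
    obtain ⟨N, hN⟩ := Metric.cauchySeq_iff.mp hu ε hε
    refine ⟨N, fun m hm n hn => ?_⟩
    have := hN m hm n hn
    rwa [dist_eq_norm] at this)
  exact ⟨(show S.Elem from f), tendsto_iff_norm_sub_tendsto_zero.mpr hf⟩

theorem norm_toL1_le (f : S.Elem) : ‖S.toL1 f‖ ≤ ‖f‖ := S.norm_le_nrm f

/-- The inclusion as a continuous linear map. -/
noncomputable def toL1L : S.Elem →L[ℂ] Lp ℂ 1 μ :=
  S.toL1.mkContinuous 1 (fun f => by simpa using S.norm_toL1_le f)

@[simp] theorem toL1L_apply (f : S.Elem) : S.toL1L f = S.toL1 f := rfl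

/-- Left translation on the Segal algebra. -/
noncomputable def translate (g : G) (f : S.Elem) : S.Elem := ⟨leftTranslate μ g (S.toL1 f), S.translate_mem g _ f.2⟩

theorem toL1_translate (g : G) (f : S.Elem) : S.toL1 (S.translate g f) = leftTranslate μ g (S.toL1 f) :=
  rfl

theorem norm_translate (g : G) (f : S.Elem) : ‖S.translate g f‖ = ‖f‖ := S.nrm_translate g f

/-- Left translation as a representation. -/
noncomputable def rep : IsoRep G S.Elem where
  T g :=
    { toFun := S.translate g
      map_add' := fun f f' => S.toL1_injective (by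
        rw [map_add, toL1_translate, toL1_translate, toL1_translate, map_add, ← leftRep_T,
          ← leftRep_T, ← leftRep_T, map_add])
      map_smul' := fun c f => S.toL1_injective (by
        rw [RingHom.id_apply, map_smul, toL1_translate, toL1_translate, map_smul, ← leftRep_T,
          ← leftRep_T, map_smul])
      norm_map' := S.norm_translate g }
  T_mul g h f := S.toL1_injective (by
    change S.toL1 (S.translate (g * h) f) = S.toL1 (S.translate g (S.translate h f))
    rw [toL1_translate, toL1_translate, toL1_translate, ← leftRep_T, ← leftRep_T, ← leftRep_T]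
    exact (leftRep μ).T_mul g h _)
  T_cont f := by
    rw [continuous_iff_continuousAt]
    intro g₀
    rw [ContinuousAt, tendsto_iff_norm_sub_tendsto_zero]
    exact S.tendsto_translate f g₀

theorem toL1_rep (g : G) (f : S.Elem) : S.toL1 (S.rep.T g f) = leftTranslate μ g (S.toL1 f) := rfl

/-- Auxiliary product given by a Bochner integral. -/
noncomputable def mulAux (f g : S.Elem) : S.Elem := S.rep.integ (S.toL1 f) g

theorem toL1_mulAux (f g : S.Elem) : S.toL1 (S.mulAux f g) = conv (S.toL1 f) (S.toL1 g) :=
  S.rep.map_integ (leftRep μ) S.toL1L (fun _ _ => rfl) _ _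

/-- A Segal algebra is closed under convolution. -/
theorem exists_convolution (f g : S.Elem) :
    ∃ h : S.Elem, (S.toL1 h : G → ℂ) =ᵐ[μ] fun x => ∫ y, S.toL1 f y * S.toL1 g (y⁻¹ * x) ∂μ :=
  ⟨S.mulAux f g, by rw [toL1_mulAux]; exact conv_coeFn _ _⟩

/-- The convolution product of the Segal algebra: `mul f g` is the element `h` of the Segal algebra
with `h(x) = ∫ f(y) g(y⁻¹ x) dy` for almost every `x`. -/
noncomputable def mul (f g : S.Elem) : S.Elem := (S.exists_convolution f g).choose

theorem mul_spec (f g : S.Elem) :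
    (S.toL1 (S.mul f g) : G → ℂ) =ᵐ[μ] fun x => ∫ y, S.toL1 f y * S.toL1 g (y⁻¹ * x) ∂μ :=
  (S.exists_convolution f g).choose_spec

theorem mul_eq_mulAux (f g : S.Elem) : S.mul f g = S.mulAux f g := by
  apply S.toL1_injective
  apply Lp.ext
  refine (S.mul_spec f g).trans ?_
  rw [toL1_mulAux]
  exact (conv_coeFn _ _).symm

/-- A Banach bimodule over the Segal algebra (with convolution as product): `left a x = a · x` and
`right a x = x · a`. -/
structure Bimodule (X : Type*) [NormedAddCommGroup X] [NormedSpace ℂ X] where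
  left : S.Elem →L[ℂ] X →L[ℂ] X
  right : S.Elem →L[ℂ] X →L[ℂ] X
  left_mul : ∀ a b x, left (S.mul a b) x = left a (left b x)
  right_mul : ∀ a b x, right (S.mul a b) x = right b (right a x)
  left_right : ∀ a b x, left a (right b x) = right b (left a x)

variable {S} in
/-- The dual bimodule `X*`: `(a · φ)(x) = φ(x · a)` and `(φ · a)(x) = φ(a · x)`. -/
noncomputable def Bimodule.dual {X : Type*} [NormedAddCommGroup X] [NormedSpace ℂ X]
    (M : S.Bimodule X) : S.Bimodule (StrongDual ℂ X) where
  left := (ContinuousLinearMap.compL ℂ X X ℂ).flip.comp M.right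
  right := (ContinuousLinearMap.compL ℂ X X ℂ).flip.comp M.left
  left_mul a b φ := by
    ext x
    simp [M.right_mul]
  right_mul a b φ := by
    ext x
    simp [M.left_mul]
  left_right a b φ := by
    ext x
    simp [M.left_right]

variable {S} in
theorem Bimodule.dual_left_apply {X : Type*} [NormedAddCommGroup X] [NormedSpace ℂ X]
    (M : S.Bimodule X) (a : S.Elem) (φ : StrongDual ℂ X) (x : X) :
    M.dual.left a φ x = φ (M.right a x) := rfl

variable {S} in
theorem Bimodule.dual_right_apply {X : Type*} [NormedAddCommGroup X] [NormedSpace ℂ X]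
    (M : S.Bimodule X) (a : S.Elem) (φ : StrongDual ℂ X) (x : X) :
    M.dual.right a φ x = φ (M.left a x) := rfl

/-- `D` is a derivation into the bimodule: `D(ab) = a · D(b) + D(a) · b`. -/
def IsDerivation {S : SegalAlgebra μ} {Y : Type*} [NormedAddCommGroup Y] [NormedSpace ℂ Y]
    (M : S.Bimodule Y) (D : S.Elem →L[ℂ] Y) : Prop :=
  ∀ a b, D (S.mul a b) = M.left a (D b) + M.right b (D a)

/-- Approximate amenability: for every Banach bimodule `X` and every bounded derivation
`D : S → X*` there is a net `(ξ i)` in `X*` (indexed by a nonempty directed preorder) such that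
`a · ξ i - ξ i · a → D a` in norm for every `a`. -/
def IsApproximatelyAmenable : Prop :=
  ∀ (X : Type v) [NormedAddCommGroup X] [NormedSpace ℂ X] [CompleteSpace X] (M : S.Bimodule X)
    (D : S.Elem →L[ℂ] StrongDual ℂ X), IsDerivation M.dual D →
    ∃ (I : Type u) (_ : Preorder I) (_ : IsDirectedOrder I) (_ : Nonempty I)
      (ξ : I → StrongDual ℂ X), ∀ a : S.Elem,
        Tendsto (fun i => M.dual.left a (ξ i) - M.dual.right a (ξ i)) atTop (𝓝 (D a))

end SegalAlgebra

end Pool.Agent.Helper87_Segal
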