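import Mathlib
import Pool.Agent.Helper87_Segal.Segal

/-!
Abstract criterion: a Segal algebra on an amenable group (Reiter sequence) with a bounded left
approximate identity and a right approximate identity is approximately contractible.
-/

set_option linter.unusedSectionVars false

open MeasureTheory Topology Filter
open scoped ENNReal

namespace Pool.Agent.Helper87_Segal

universe u v

variable {G : Type u} [Group G] [TopologicalSpace G] [IsTopologicalGroup G] [LocallyCompactSpace G]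
  [T2Space G] [SecondCountableTopology G] [MeasurableSpace G] [BorelSpace G]

namespace SegalAlgebra

variable {μ : Measure G} [μ.IsHaarMeasure] (S : SegalAlgebra μ)

/-- The product as a continuous bilinear map. -/
noncomputable def mulL : S.Elem →L[ℂ] S.Elem →L[ℂ] S.Elem := (S.rep.integL (μ := μ)).comp S.toL1L

theorem mulL_apply (a b : S.Elem) : S.mulL a b = S.mul a b := (S.mul_eq_mulAux a b).symm

theorem mul_eq_integ (a b : S.Elem) : S.mul a b = S.rep.integ (S.toL1 a) b := S.mul_eq_mulAux a b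

theorem mul_add' (a b c : S.Elem) : S.mul a (b + c) = S.mul a b + S.mul a c := by
  simp only [← mulL_apply, map_add]

theorem mul_sub' (a b c : S.Elem) : S.mul a (b - c) = S.mul a b - S.mul a c := by
  simp only [← mulL_apply, map_sub]

theorem add_mul' (a b c : S.Elem) : S.mul (a + b) c = S.mul a c + S.mul b c := by
  simp only [← mulL_apply, map_add, add_apply]

theorem sub_mul' (a b c : S.Elem) : S.mul (a - b) c = S.mul a c - S.mul b c := by
  simp only [← mulL_apply, map_sub, sub_apply]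

theorem norm_mul_le' (a b : S.Elem) : ‖S.mul a b‖ ≤ ‖S.toL1 a‖ * ‖b‖ := by
  rw [mul_eq_integ]; exact S.rep.norm_integ_le _ _

theorem norm_mul_le (a b : S.Elem) : ‖S.mul a b‖ ≤ ‖a‖ * ‖b‖ :=
  (S.norm_mul_le' a b).trans (mul_le_mul_of_nonneg_right (S.norm_toL1_le a) (norm_nonneg _))

theorem toL1_mul (a b : S.Elem) : S.toL1 (S.mul a b) = conv (S.toL1 a) (S.toL1 b) := by
  rw [mul_eq_mulAux, toL1_mulAux]

theorem mul_assoc' (a b c : S.Elem) : S.mul (S.mul a b) c = S.mul a (S.mul b c) := by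
  rw [mul_eq_integ, toL1_mul, S.rep.integ_conv, ← mul_eq_integ, ← mul_eq_integ]

theorem mul_T (g : G) (a b : S.Elem) : S.mul (S.rep.T g a) b = S.rep.T g (S.mul a b) := by
  rw [mul_eq_integ, toL1_rep, S.rep.integ_leftTranslate, ← mul_eq_integ]

section Bimod

variable {Y : Type*} [NormedAddCommGroup Y] [NormedSpace ℂ Y] (M : S.Bimodule Y)
  (D : S.Elem →L[ℂ] Y)

/-- the integrand -/
noncomputable def Psi (e w : S.Elem) (g : G) : Y := M.left (S.rep.T g e) (D (S.rep.T g⁻¹ w))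

theorem norm_left_le (a : S.Elem) (y : Y) : ‖M.left a y‖ ≤ ‖M.left‖ * ‖a‖ * ‖y‖ :=
  M.left.le_opNorm₂ a y

theorem continuous_Psi (e w : S.Elem) : Continuous (S.Psi M D e w) := by
  unfold Psi
  have h1 : Continuous fun g : G => M.left (S.rep.T g e) := M.left.continuous.comp (S.rep.T_cont e)
  have h2 : Continuous fun g : G => D (S.rep.T g⁻¹ w) :=
    D.continuous.comp ((S.rep.T_cont w).comp continuous_inv)
  exact h1.clm_apply h2

theorem norm_Psi_le (e w : S.Elem) (g : G) :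
    ‖S.Psi M D e w g‖ ≤ ‖M.left‖ * ‖e‖ * (‖D‖ * ‖w‖) := by
  unfold Psi
  refine (S.norm_left_le M _ _).trans ?_
  rw [S.rep.norm_T]
  refine mul_le_mul_of_nonneg_left ?_ (by positivity)
  refine (D.le_opNorm _).trans ?_
  rw [S.rep.norm_T]

theorem integrable_smul_bdd {f : G → ℂ} (hf : Integrable f μ) {ψ : G → Y} (hψ : Continuous ψ)
    {C : ℝ} (hC : ∀ g, ‖ψ g‖ ≤ C) : Integrable (fun g => f g • ψ g) μ := by
  refine Integrable.mono' (hf.norm.mul_const C) (hf.1.smul hψ.aestronglyMeasurable) ?_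
  filter_upwards with g
  rw [norm_smul]
  exact mul_le_mul_of_nonneg_left (hC g) (norm_nonneg _)

theorem norm_integral_smul_le [CompleteSpace Y] (f : Lp ℂ 1 μ) {ψ : G → Y} {C : ℝ}
    (hC : ∀ᵐ g ∂μ, ‖f g • ψ g‖ ≤ ‖f g‖ * C) : ‖∫ g, f g • ψ g ∂μ‖ ≤ ‖f‖ * C := by
  refine (norm_integral_le_of_norm_le ((L1.integrable_coeFn f).norm.mul_const C) hC).trans ?_
  rw [integral_mul_const, L1.norm_eq_integral_norm]

variable [CompleteSpace Y]

/-- the averaged element -/
noncomputable def Theta (ν : Lp ℂ 1 μ) (e w : S.Elem) : Y := ∫ g, ν g • S.Psi M D e w g ∂μ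

theorem integrable_Theta (ν : Lp ℂ 1 μ) (e w : S.Elem) :
    Integrable (fun g => ν g • S.Psi M D e w g) μ :=
  integrable_smul_bdd (L1.integrable_coeFn ν) (S.continuous_Psi M D e w) (S.norm_Psi_le M D e w)

theorem norm_Theta_le (ν : Lp ℂ 1 μ) (e w : S.Elem) :
    ‖S.Theta M D ν e w‖ ≤ ‖ν‖ * (‖M.left‖ * ‖e‖ * (‖D‖ * ‖w‖)) := by
  unfold Theta
  refine norm_integral_smul_le ν ?_
  filter_upwards with g
  rw [norm_smul]
  exact mul_le_mul_of_nonneg_left (S.norm_Psi_le M D e w g) (norm_nonneg _)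

theorem Theta_add_right (ν : Lp ℂ 1 μ) (e w w' : S.Elem) :
    S.Theta M D ν e (w + w') = S.Theta M D ν e w + S.Theta M D ν e w' := by
  unfold Theta
  rw [← integral_add (S.integrable_Theta M D ν e w) (S.integrable_Theta M D ν e w')]
  simp only [Psi, map_add, smul_add]

theorem Theta_smul_right (c : ℂ) (ν : Lp ℂ 1 μ) (e w : S.Elem) :
    S.Theta M D ν e (c • w) = c • S.Theta M D ν e w := by
  unfold Theta
  rw [← integral_smul]
  congr 1
  ext g
  simp only [Psi, map_smul]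
  rw [smul_comm]

theorem Theta_sub_left (ν ν' : Lp ℂ 1 μ) (e w : S.Elem) :
    S.Theta M D (ν - ν') e w = S.Theta M D ν e w - S.Theta M D ν' e w := by
  unfold Theta
  rw [← integral_sub (S.integrable_Theta M D ν e w) (S.integrable_Theta M D ν' e w)]
  refine integral_congr_ae ?_
  filter_upwards [Lp.coeFn_sub ν ν'] with g hg
  rw [hg, Pi.sub_apply, sub_smul]

/-- `Theta` as a continuous linear map of the last variable. -/
noncomputable def ThetaL (ν : Lp ℂ 1 μ) (e : S.Elem) : S.Elem →L[ℂ] Y :=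
  LinearMap.mkContinuous
    { toFun := S.Theta M D ν e
      map_add' := S.Theta_add_right M D ν e
      map_smul' := fun c w => S.Theta_smul_right M D c ν e w } (‖ν‖ * (‖M.left‖ * ‖e‖ * ‖D‖))
    (fun w => by
      refine (S.norm_Theta_le M D ν e w).trans (le_of_eq ?_)
      ring)

theorem ThetaL_apply (ν : Lp ℂ 1 μ) (e w : S.Elem) :
    S.ThetaL M D ν e w = S.Theta M D ν e w := rfl

/-- `Theta ν e (a w) = ∫ a(h) Theta ν e (T_h w) dh`. -/
theorem Theta_mul (ν : Lp ℂ 1 μ) (e a w : S.Elem) :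
    S.Theta M D ν e (S.mul a w) = ∫ h, S.toL1 a h • S.Theta M D ν e (S.rep.T h w) ∂μ := by
  rw [← ThetaL_apply, mul_eq_integ]
  unfold IsoRep.integ
  rw [← ContinuousLinearMap.integral_comp_comm _ (S.rep.integrable_smul_T (S.toL1 a) w)]
  simp only [map_smul, ThetaL_apply]

theorem Theta_translate (ν : Lp ℂ 1 μ) (e w : S.Elem) (h : G) :
    S.Theta M D (leftTranslate μ h ν) e (S.rep.T h w) =
      ∫ g, ν g • M.left (S.rep.T (h * g) e) (D (S.rep.T g⁻¹ w)) ∂μ := by
  have h1 : S.Theta M D (leftTranslate μ h ν) e (S.rep.T h w) =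
      ∫ g, ν (h⁻¹ * g) • S.Psi M D e (S.rep.T h w) g ∂μ := by
    unfold Theta
    refine integral_congr_ae ?_
    filter_upwards [leftTranslate_coeFn μ h ν] with g hg
    rw [hg]
  rw [h1, ← integral_mul_left_eq_self _ h]
  simp only [inv_mul_cancel_left]
  congr 1
  ext g
  simp only [Psi]
  rw [mul_inv_rev, S.rep.T_mul g⁻¹ h⁻¹, S.rep.T_inv_T]

/-- `a · Theta ν e w = ∫ a(h) Theta (L_h ν) e (T_h w) dh`. -/
theorem left_Theta (ν : Lp ℂ 1 μ) (e a w : S.Elem) :
    M.left a (S.Theta M D ν e w) =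
      ∫ h, S.toL1 a h • S.Theta M D (leftTranslate μ h ν) e (S.rep.T h w) ∂μ := by
  have h1 : M.left a (S.Theta M D ν e w) =
      ∫ g, ∫ h, (ν g * S.toL1 a h) • M.left (S.rep.T (h * g) e) (D (S.rep.T g⁻¹ w)) ∂μ ∂μ := by
    unfold Theta
    rw [← ContinuousLinearMap.integral_comp_comm _ (S.integrable_Theta M D ν e w)]
    congr 1
    ext g
    rw [map_smul, Psi, ← M.left_mul, mul_eq_integ, IsoRep.integ]
    have h2 := ContinuousLinearMap.integral_comp_comm (M.left.flip (D (S.rep.T g⁻¹ w)))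
      (S.rep.integrable_smul_T (S.toL1 a) (S.rep.T g e))
    simp only [ContinuousLinearMap.flip_apply] at h2
    rw [← h2, ← integral_smul]
    congr 1
    ext h
    rw [map_smul, smul_apply, smul_smul, S.rep.T_mul]
  rw [h1, integral_integral_swap]
  · congr 1
    ext h
    rw [Theta_translate, ← integral_smul]
    congr 1
    ext g
    rw [smul_smul, mul_comm]
  · have hint : Integrable (fun p : G × G => ν p.1 * S.toL1 a p.2) (μ.prod μ) :=
      (L1.integrable_coeFn ν).mul_prod (L1.integrable_coeFn (S.toL1 a))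
    have hcont : Continuous (fun p : G × G =>
        M.left (S.rep.T (p.2 * p.1) e) (D (S.rep.T p.1⁻¹ w))) := by
      have h1 : Continuous fun p : G × G => M.left (S.rep.T (p.2 * p.1) e) :=
        M.left.continuous.comp ((S.rep.T_cont e).comp (continuous_snd.mul continuous_fst))
      have h2 : Continuous fun p : G × G => D (S.rep.T p.1⁻¹ w) :=
        D.continuous.comp ((S.rep.T_cont w).comp continuous_fst.inv)
      exact h1.clm_apply h2
    refine Integrable.mono' (hint.norm.mul_const (‖M.left‖ * ‖e‖ * (‖D‖ * ‖w‖))) ?_ ?_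
    · exact hint.1.smul hcont.aestronglyMeasurable
    · filter_upwards with p
      simp only [Function.uncurry]
      rw [norm_smul]
      refine mul_le_mul_of_nonneg_left ?_ (norm_nonneg _)
      refine (S.norm_left_le M _ _).trans ?_
      rw [S.rep.norm_T]
      refine mul_le_mul_of_nonneg_left ?_ (by positivity)
      refine (D.le_opNorm _).trans ?_
      rw [S.rep.norm_T]

theorem Theta_add_left (ν ν' : Lp ℂ 1 μ) (e w : S.Elem) :
    S.Theta M D (ν + ν') e w = S.Theta M D ν e w + S.Theta M D ν' e w := by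
  unfold Theta
  rw [← integral_add (S.integrable_Theta M D ν e w) (S.integrable_Theta M D ν' e w)]
  refine integral_congr_ae ?_
  filter_upwards [Lp.coeFn_add ν ν'] with g hg
  rw [hg, Pi.add_apply, add_smul]

theorem Theta_smul_left (c : ℂ) (ν : Lp ℂ 1 μ) (e w : S.Elem) :
    S.Theta M D (c • ν) e w = c • S.Theta M D ν e w := by
  unfold Theta
  rw [← integral_smul]
  refine integral_congr_ae ?_
  filter_upwards [Lp.coeFn_smul c ν] with g hg
  rw [hg, Pi.smul_apply, smul_eq_mul, mul_smul]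

/-- `Theta` as a continuous bilinear map. -/
noncomputable def ThetaLL (e : S.Elem) : Lp ℂ 1 μ →L[ℂ] S.Elem →L[ℂ] Y :=
  LinearMap.mkContinuous₂
    (LinearMap.mk₂ ℂ (fun ν w => S.Theta M D ν e w) (fun ν ν' w => S.Theta_add_left M D ν ν' e w)
      (fun c ν w => S.Theta_smul_left M D c ν e w) (fun ν w w' => S.Theta_add_right M D ν e w w')
      (fun c ν w => S.Theta_smul_right M D c ν e w)) (‖M.left‖ * ‖e‖ * ‖D‖)
    (fun ν w => by
      refine (S.norm_Theta_le M D ν e w).trans (le_of_eq ?_)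
      ring)

theorem ThetaLL_apply (ν : Lp ℂ 1 μ) (e w : S.Elem) :
    S.ThetaLL M D e ν w = S.Theta M D ν e w := rfl

theorem continuous_leftTranslate (ν : Lp ℂ 1 μ) : Continuous fun h => leftTranslate μ h ν :=
  (leftRep μ).T_cont ν

theorem norm_leftTranslate (ν : Lp ℂ 1 μ) (h : G) : ‖leftTranslate μ h ν‖ = ‖ν‖ :=
  (leftRep μ).norm_T h ν

theorem norm_left_Theta_sub_le (ν : Lp ℂ 1 μ) (e a w : S.Elem) :
    ‖M.left a (S.Theta M D ν e w) - S.Theta M D ν e (S.mul a w)‖ ≤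
      (∫ h, ‖S.toL1 a h‖ * ‖leftTranslate μ h ν - ν‖ ∂μ) * (‖M.left‖ * ‖e‖ * (‖D‖ * ‖w‖)) := by
  have hc1 : Continuous fun h => S.Theta M D (leftTranslate μ h ν) e (S.rep.T h w) := by
    have h1 : Continuous fun h => S.ThetaLL M D e (leftTranslate μ h ν) :=
      (S.ThetaLL M D e).continuous.comp (continuous_leftTranslate ν)
    exact h1.clm_apply (S.rep.T_cont w)
  have hc2 : Continuous fun h => S.Theta M D ν e (S.rep.T h w) :=
    (S.ThetaLL M D e ν).continuous.comp (S.rep.T_cont w)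
  have hi1 : Integrable (fun h => S.toL1 a h • S.Theta M D (leftTranslate μ h ν) e (S.rep.T h w)) μ :=
    integrable_smul_bdd (L1.integrable_coeFn _) hc1
      (C := ‖ν‖ * (‖M.left‖ * ‖e‖ * (‖D‖ * ‖w‖))) (fun h => by
        refine (S.norm_Theta_le M D _ e _).trans (le_of_eq ?_)
        rw [norm_leftTranslate, S.rep.norm_T])
  have hi2 : Integrable (fun h => S.toL1 a h • S.Theta M D ν e (S.rep.T h w)) μ :=
    integrable_smul_bdd (L1.integrable_coeFn _) hc2
      (C := ‖ν‖ * (‖M.left‖ * ‖e‖ * (‖D‖ * ‖w‖))) (fun h => by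
        refine (S.norm_Theta_le M D _ e _).trans (le_of_eq ?_)
        rw [S.rep.norm_T])
  rw [left_Theta, Theta_mul, ← integral_sub hi1 hi2, ← integral_mul_const]
  refine norm_integral_le_of_norm_le ?_ ?_
  · refine Integrable.mul_const ?_ _
    refine Integrable.mul_bdd (c := 2 * ‖ν‖) (L1.integrable_coeFn _).norm ?_ ?_
    · exact ((continuous_leftTranslate ν).sub continuous_const).norm.aestronglyMeasurable
    · filter_upwards with h
      rw [norm_norm]
      refine (norm_sub_le _ _).trans (le_of_eq ?_)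
      rw [norm_leftTranslate]; ring
  · filter_upwards with h
    rw [← smul_sub, ← Theta_sub_left, norm_smul, mul_assoc]
    refine mul_le_mul_of_nonneg_left ?_ (norm_nonneg _)
    refine (S.norm_Theta_le M D _ e _).trans (le_of_eq ?_)
    rw [S.rep.norm_T]

/-- `Theta ν e w · a` for a derivation. -/
theorem right_Theta (hD : IsDerivation M D) (ν : Lp ℂ 1 μ) (e a w : S.Elem) :
    M.right a (S.Theta M D ν e w) = S.Theta M D ν e (S.mul w a) -
      ∫ g, ν g • M.left (S.rep.T g (S.mul e (S.rep.T g⁻¹ w))) (D a) ∂μ := by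
  have hi : Integrable (fun g => ν g • M.left (S.rep.T g (S.mul e (S.rep.T g⁻¹ w))) (D a)) μ := by
    refine integrable_smul_bdd (L1.integrable_coeFn ν) (C := ‖M.left‖ * (‖e‖ * ‖w‖) * ‖D a‖) ?_ ?_
    · have h1 : Continuous fun g : G => S.mul e (S.rep.T g⁻¹ w) := by
        simp only [← mulL_apply]
        exact (S.mulL e).continuous.comp ((S.rep.T_cont w).comp continuous_inv)
      have h2 : Continuous fun g : G => S.rep.T g (S.mul e (S.rep.T g⁻¹ w)) :=
        S.rep.continuous_T₂.comp (continuous_id.prodMk h1)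
      exact (M.left.continuous.comp h2).clm_apply continuous_const
    · intro g
      refine (S.norm_left_le M _ _).trans ?_
      refine mul_le_mul_of_nonneg_right ?_ (norm_nonneg _)
      refine mul_le_mul_of_nonneg_left ?_ (norm_nonneg M.left)
      rw [S.rep.norm_T]
      refine (S.norm_mul_le _ _).trans (le_of_eq ?_)
      rw [S.rep.norm_T]
  unfold Theta
  rw [← ContinuousLinearMap.integral_comp_comm _ (S.integrable_Theta M D ν e w),
    ← integral_sub (S.integrable_Theta M D ν e (S.mul w a)) hi]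
  congr 1
  ext g
  rw [map_smul, ← smul_sub]
  congr 1
  have h1 : M.right a (D (S.rep.T g⁻¹ w)) = D (S.rep.T g⁻¹ (S.mul w a)) -
      M.left (S.rep.T g⁻¹ w) (D a) := by
    rw [← mul_T, hD]
    abel
  rw [Psi, Psi, ← M.left_right, h1, map_sub, ← M.left_mul, mul_T]

end Bimod

/-- Bounded left approximate identity (finite sets). -/
def HasBddLeftAI : Prop :=
  ∃ C : ℝ, ∀ F : Finset S.Elem, ∀ ε : ℝ, 0 < ε → ∃ e : S.Elem, ‖e‖ ≤ C ∧ ∀ s ∈ F, ‖S.mul e s - s‖ ≤ ε

/-- Right approximate identity (finite sets), possibly unbounded. -/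
def HasRightAI : Prop :=
  ∀ F : Finset S.Elem, ∀ ε : ℝ, 0 < ε → ∃ u : S.Elem, ∀ a ∈ F, ‖S.mul a u - a‖ ≤ ε

end SegalAlgebra

/-- Existence of a Reiter sequence: the group is amenable. -/
def HasReiter (μ : Measure G) [μ.IsHaarMeasure] : Prop :=
  ∃ ν : ℕ → Lp ℂ 1 μ, (∀ n, ‖ν n‖ ≤ 1) ∧ (∀ n, ∫ g, ν n g ∂μ = 1) ∧
    (∀ n, ∃ K : Set G, IsCompact K ∧ ∀ᵐ g ∂μ, g ∉ K → ν n g = 0) ∧
    ∀ h, Tendsto (fun n => ‖leftTranslate μ h (ν n) - ν n‖) atTop (𝓝 0)

namespace SegalAlgebra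

variable {μ : Measure G} [μ.IsHaarMeasure] (S : SegalAlgebra μ)

/-- The bounded left approximate identity works uniformly on compact sets. -/
theorem left_compact {C : ℝ}
    (hC : ∀ F : Finset S.Elem, ∀ ε : ℝ, 0 < ε → ∃ e : S.Elem, ‖e‖ ≤ C ∧ ∀ s ∈ F, ‖S.mul e s - s‖ ≤ ε)
    {K : Set S.Elem} (hK : IsCompact K) {δ : ℝ} (hδ : 0 < δ) :
    ∃ e : S.Elem, ‖e‖ ≤ C ∧ ∀ s ∈ K, ‖S.mul e s - s‖ ≤ δ := by
  have hC0 : 0 ≤ C := by
    obtain ⟨e, he, -⟩ := hC ∅ 1 one_pos
    exact (norm_nonneg e).trans he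
  set η : ℝ := δ / (C + 2) with hη
  have hη0 : 0 < η := by positivity
  obtain ⟨t, -, htf, htc⟩ := hK.finite_cover_balls hη0
  obtain ⟨e, he, hes⟩ := hC htf.toFinset η hη0
  refine ⟨e, he, fun s hs => ?_⟩
  obtain ⟨x, hx, hsx⟩ := Set.mem_iUnion₂.mp (htc hs)
  rw [Metric.mem_ball, dist_eq_norm] at hsx
  have h1 : S.mul e s - s = S.mul e (s - x) + (S.mul e x - x) - (s - x) := by
    rw [mul_sub']; abel
  rw [h1]
  have h2 : ‖S.mul e (s - x)‖ ≤ C * η :=
    (S.norm_mul_le _ _).trans (mul_le_mul he hsx.le (norm_nonneg _) hC0)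
  have h3 := hes x (by simpa using hx)
  calc ‖S.mul e (s - x) + (S.mul e x - x) - (s - x)‖
      ≤ ‖S.mul e (s - x)‖ + ‖S.mul e x - x‖ + ‖s - x‖ :=
        (norm_sub_le _ _).trans (add_le_add_left (norm_add_le _ _) _)
    _ ≤ C * η + η + η := by linarith
    _ = δ := by rw [hη]; field_simp; ring

/-- The Reiter sequence kills finitely many integrable functions in the averaged sense. -/
theorem reiter_integral {ν : ℕ → Lp ℂ 1 μ} (h1 : ∀ n, ‖ν n‖ ≤ 1)
    (h4 : ∀ h, Tendsto (fun n => ‖leftTranslate μ h (ν n) - ν n‖) atTop (𝓝 0)) (f : Lp ℂ 1 μ) :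
    Tendsto (fun n => ∫ h, ‖f h‖ * ‖leftTranslate μ h (ν n) - ν n‖ ∂μ) atTop (𝓝 0) := by
  have : Tendsto (fun n => ∫ h, ‖f h‖ * ‖leftTranslate μ h (ν n) - ν n‖ ∂μ) atTop
      (𝓝 (∫ _, (0 : ℝ) ∂μ)) := by
    refine tendsto_integral_of_dominated_convergence (fun h => ‖f h‖ * 2) ?_ ?_ ?_ ?_
    · intro n
      exact (L1.integrable_coeFn f).norm.1.mul
        ((continuous_leftTranslate (ν n)).sub continuous_const).norm.aestronglyMeasurable
    · exact (L1.integrable_coeFn f).norm.mul_const 2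
    · intro n
      filter_upwards with h
      rw [norm_mul, norm_norm, norm_norm]
      refine mul_le_mul_of_nonneg_left ?_ (norm_nonneg _)
      refine (norm_sub_le _ _).trans ?_
      rw [norm_leftTranslate]
      linarith [h1 n]
    · filter_upwards with h
      simpa using (h4 h).const_mul ‖f h‖
  simpa using this

section Main

variable {Y : Type*} [NormedAddCommGroup Y] [NormedSpace ℂ Y] [CompleteSpace Y] (M : S.Bimodule Y)
  (D : S.Elem →L[ℂ] Y)

/-- The basic identity for the first part of the approximating element. -/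
theorem first_part (hD : IsDerivation M D) (a u v : S.Elem) :
    M.left a (-D v + M.left u (D v)) - M.right a (-D v + M.left u (D v)) =
      D a - M.left (u + v - S.mul u v) (D a) - M.left (a - S.mul a u) (D v) - D (a - S.mul v a)
        + M.left u (D (a - S.mul v a)) := by
  have h1 : M.right a (D v) = D (S.mul v a) - M.left v (D a) := by
    rw [hD]; abel
  have h2 : M.right a (M.left u (D v)) = M.left u (M.right a (D v)) := (M.left_right u a _).symm
  simp only [map_add, map_neg, map_sub, h2, h1, ← M.left_mul, sub_apply, add_apply]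
  abel

theorem commutator_bound (a u v : S.Elem) {ε₁ ε₂ C : ℝ} (hu : ‖S.mul a u - a‖ ≤ ε₁)
    (hv : ‖S.mul v a - a‖ ≤ ε₂) (hvC : ‖v‖ ≤ C) :
    ‖S.mul a (u + v - S.mul u v) - S.mul (u + v - S.mul u v) a‖ ≤
      ε₁ * (1 + C) + ε₂ * (1 + ‖u‖) := by
  have h1 : S.mul a (u + v - S.mul u v) - S.mul (u + v - S.mul u v) a =
      (S.mul a u - a) - S.mul (S.mul a u - a) v - ((S.mul v a - a) - S.mul u (S.mul v a - a)) := by
    rw [mul_sub', mul_add', sub_mul', add_mul', sub_mul', mul_sub', mul_assoc', mul_assoc']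
    abel
  have hε₁ : 0 ≤ ε₁ := (norm_nonneg _).trans hu
  have hC : 0 ≤ C := (norm_nonneg _).trans hvC
  rw [h1]
  have h2 : ‖S.mul (S.mul a u - a) v‖ ≤ ε₁ * C :=
    (S.norm_mul_le _ _).trans (mul_le_mul hu hvC (norm_nonneg _) hε₁)
  have h3 : ‖S.mul u (S.mul v a - a)‖ ≤ ‖u‖ * ε₂ :=
    (S.norm_mul_le _ _).trans (mul_le_mul_of_nonneg_left hv (norm_nonneg _))
  calc ‖(S.mul a u - a) - S.mul (S.mul a u - a) v - ((S.mul v a - a) - S.mul u (S.mul v a - a))‖
      ≤ ‖S.mul a u - a‖ + ‖S.mul (S.mul a u - a) v‖ +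
        (‖S.mul v a - a‖ + ‖S.mul u (S.mul v a - a)‖) := by
        refine (norm_sub_le _ _).trans (add_le_add (norm_sub_le _ _) (norm_sub_le _ _))
    _ ≤ ε₁ * (1 + C) + ε₂ * (1 + ‖u‖) := by nlinarith

/-- The averaged part. -/
theorem averaged_part (ν : Lp ℂ 1 μ) (hν1 : ‖ν‖ ≤ 1) (hνi : ∫ g, ν g ∂μ = 1) {K : Set G}
    (hνK : ∀ᵐ g ∂μ, g ∉ K → ν g = 0) (e w a : S.Elem) {δ : ℝ} (hδ : 0 ≤ δ)
    (he : ∀ g ∈ K, ‖S.mul e (S.rep.T g⁻¹ w) - S.rep.T g⁻¹ w‖ ≤ δ) :
    ‖(∫ g, ν g • M.left (S.rep.T g (S.mul e (S.rep.T g⁻¹ w))) (D a) ∂μ) - M.left w (D a)‖ ≤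
      ‖M.left‖ * δ * (‖D‖ * ‖a‖) := by
  have hi : Integrable (fun g => ν g • M.left (S.rep.T g (S.mul e (S.rep.T g⁻¹ w))) (D a)) μ := by
    refine integrable_smul_bdd (L1.integrable_coeFn ν) (C := ‖M.left‖ * (‖e‖ * ‖w‖) * ‖D a‖) ?_ ?_
    · have h1 : Continuous fun g : G => S.mul e (S.rep.T g⁻¹ w) := by
        simp only [← mulL_apply]
        exact (S.mulL e).continuous.comp ((S.rep.T_cont w).comp continuous_inv)
      have h2 : Continuous fun g : G => S.rep.T g (S.mul e (S.rep.T g⁻¹ w)) :=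
        S.rep.continuous_T₂.comp (continuous_id.prodMk h1)
      exact (M.left.continuous.comp h2).clm_apply continuous_const
    · intro g
      refine (S.norm_left_le M _ _).trans ?_
      refine mul_le_mul_of_nonneg_right ?_ (norm_nonneg _)
      refine mul_le_mul_of_nonneg_left ?_ (norm_nonneg M.left)
      rw [S.rep.norm_T]
      refine (S.norm_mul_le _ _).trans (le_of_eq ?_)
      rw [S.rep.norm_T]
  have hw : M.left w (D a) = ∫ g, ν g • M.left w (D a) ∂μ := by
    rw [integral_smul_const, hνi, one_smul]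
  have hiw : Integrable (fun g => ν g • M.left w (D a)) μ := (L1.integrable_coeFn ν).smul_const _
  rw [hw, ← integral_sub hi hiw]
  have hbound : ‖∫ g, (ν g • M.left (S.rep.T g (S.mul e (S.rep.T g⁻¹ w))) (D a) -
      ν g • M.left w (D a)) ∂μ‖ ≤ ‖ν‖ * (‖M.left‖ * δ * (‖D‖ * ‖a‖)) := by
    simp only [← smul_sub]
    refine norm_integral_smul_le ν ?_
    filter_upwards [hνK] with g hg
    by_cases hgK : g ∈ K
    · rw [norm_smul]
      refine mul_le_mul_of_nonneg_left ?_ (norm_nonneg _)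
      have h1 : M.left (S.rep.T g (S.mul e (S.rep.T g⁻¹ w))) (D a) - M.left w (D a) =
          M.left (S.rep.T g (S.mul e (S.rep.T g⁻¹ w) - S.rep.T g⁻¹ w)) (D a) := by
        rw [map_sub (S.rep.T g), S.rep.T_T_inv, map_sub, sub_apply]
      rw [h1]
      refine (S.norm_left_le M _ _).trans ?_
      rw [S.rep.norm_T]
      exact mul_le_mul (mul_le_mul_of_nonneg_left (he g hgK) (norm_nonneg M.left))
        (D.le_opNorm a) (norm_nonneg _) (by positivity)
    · rw [hg hgK]; simp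
  refine hbound.trans ?_
  exact mul_le_of_le_one_left (by positivity) hν1

/-- Approximate contractibility of Segal algebras with a bounded left approximate identity and a
right approximate identity on groups with a Reiter sequence. -/
theorem approx_contractible (hL : S.HasBddLeftAI) (hR : S.HasRightAI) (hG : HasReiter μ)
    (hD : IsDerivation M D) (F : Finset S.Elem) {ε : ℝ} (hε : 0 < ε) :
    ∃ ξ : Y, ∀ a ∈ F, ‖M.left a ξ - M.right a ξ - D a‖ ≤ ε := by
  obtain ⟨C, hC⟩ := hL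
  have hC0 : 0 ≤ C := by
    obtain ⟨e, he, -⟩ := hC ∅ 1 one_pos
    exact (norm_nonneg e).trans he
  obtain ⟨ν, hν1, hνi, hνK, hνt⟩ := hG
  set L : ℝ := ‖M.left‖ with hLdef
  have hL0 : 0 ≤ L := norm_nonneg M.left
  set d : ℝ := ‖D‖ with hddef
  have hd0 : 0 ≤ d := norm_nonneg D
  have choose_eta : ∀ P : ℝ, 0 ≤ P → ∃ η : ℝ, 0 < η ∧ P * η ≤ ε / 6 := by
    intro P hP
    refine ⟨ε / (6 * (P + 1)), by positivity, ?_⟩
    rw [mul_div_assoc', div_le_div_iff₀ (by positivity) (by norm_num)]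
    nlinarith
  obtain ⟨ε₁, hε₁, hP⟩ := choose_eta (L * (d * C) + L * C * (d * (1 + C))) (by positivity)
  obtain ⟨u, hu⟩ := hR F ε₁ hε₁
  obtain ⟨ε₂, hε₂, hQ⟩ := choose_eta (d + L * ‖u‖ * d + L * C * (d * (1 + ‖u‖))) (by positivity)
  obtain ⟨v, hvC, hv⟩ := hC F ε₂ hε₂
  set w : S.Elem := u + v - S.mul u v with hwdef
  obtain ⟨ε₃, hε₃, hR3⟩ := choose_eta (L * C * (d * ‖w‖)) (by positivity)
  have hev : ∀ᶠ n in atTop, ∀ a ∈ F,
      ∫ h, ‖S.toL1 a h‖ * ‖leftTranslate μ h (ν n) - ν n‖ ∂μ ≤ ε₃ := by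
    rw [Filter.eventually_all_finset]
    intro a _
    exact (reiter_integral hν1 hνt (S.toL1 a)).eventually (eventually_le_nhds hε₃)
  obtain ⟨n, hn⟩ := hev.exists
  obtain ⟨K, hK, hK0⟩ := hνK n
  set A : ℝ := ∑ a ∈ F, ‖a‖ with hA
  have hA0 : 0 ≤ A := Finset.sum_nonneg fun _ _ => norm_nonneg _
  obtain ⟨δ, hδ, hδ6⟩ := choose_eta (L * (d * A)) (by positivity)
  have hcomp : IsCompact ((fun g : G => S.rep.T g⁻¹ w) '' K) :=
    hK.image ((S.rep.T_cont w).comp continuous_inv)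
  obtain ⟨e, heC, he⟩ := S.left_compact hC hcomp hδ
  have he' : ∀ g ∈ K, ‖S.mul e (S.rep.T g⁻¹ w) - S.rep.T g⁻¹ w‖ ≤ δ :=
    fun g hg => he _ ⟨g, hg, rfl⟩
  refine ⟨(-D v + M.left u (D v)) + S.Theta M D (ν n) e w, fun a ha => ?_⟩
  set I : Y := ∫ g, ν n g • M.left (S.rep.T g (S.mul e (S.rep.T g⁻¹ w))) (D a) ∂μ with hI
  have hmain : M.left a ((-D v + M.left u (D v)) + S.Theta M D (ν n) e w) -
      M.right a ((-D v + M.left u (D v)) + S.Theta M D (ν n) e w) - D a =
      (-(M.left (a - S.mul a u) (D v))) + (-(D (a - S.mul v a))) + M.left u (D (a - S.mul v a)) +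
      (M.left a (S.Theta M D (ν n) e w) - S.Theta M D (ν n) e (S.mul a w)) +
      S.Theta M D (ν n) e (S.mul a w - S.mul w a) + (I - M.left w (D a)) := by
    have h1 := S.first_part M D hD a u v
    have h2 := S.right_Theta M D hD (ν n) e a w
    have h3 : S.Theta M D (ν n) e (S.mul a w - S.mul w a) =
        S.Theta M D (ν n) e (S.mul a w) - S.Theta M D (ν n) e (S.mul w a) := by
      simp only [← ThetaL_apply, map_sub]
    rw [map_add (M.left a), map_add (M.right a), h2, h3]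
    rw [← hwdef] at h1
    rw [show ∀ p q r s t : Y, p + q - (r + s) - t = (p - r) + q - s - t from fun p q r s t => by abel,
      h1]
    abel
  rw [hmain]
  have hau : ‖a - S.mul a u‖ ≤ ε₁ := by rw [norm_sub_rev]; exact hu a ha
  have hva : ‖a - S.mul v a‖ ≤ ε₂ := by rw [norm_sub_rev]; exact hv a ha
  have haA : ‖a‖ ≤ A := Finset.single_le_sum (f := fun a => ‖a‖) (fun _ _ => norm_nonneg _) ha
  have hDv : ‖D v‖ ≤ d * C := (D.le_opNorm v).trans (mul_le_mul_of_nonneg_left hvC hd0)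
  have hDva : ‖D (a - S.mul v a)‖ ≤ d * ε₂ :=
    (D.le_opNorm _).trans (mul_le_mul_of_nonneg_left hva hd0)
  have t1 : ‖-(M.left (a - S.mul a u) (D v))‖ ≤ L * ε₁ * (d * C) := by
    rw [norm_neg]
    refine (S.norm_left_le M _ _).trans ?_
    exact mul_le_mul (mul_le_mul_of_nonneg_left hau hL0) hDv (norm_nonneg _) (by positivity)
  have t2 : ‖-(D (a - S.mul v a))‖ ≤ d * ε₂ := by rw [norm_neg]; exact hDva
  have t3 : ‖M.left u (D (a - S.mul v a))‖ ≤ L * ‖u‖ * (d * ε₂) := by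
    refine (S.norm_left_le M _ _).trans ?_
    exact mul_le_mul_of_nonneg_left hDva (by positivity)
  have t4 : ‖M.left a (S.Theta M D (ν n) e w) - S.Theta M D (ν n) e (S.mul a w)‖ ≤ ε / 6 := by
    refine (S.norm_left_Theta_sub_le M D (ν n) e a w).trans ?_
    have hX : 0 ≤ ∫ h, ‖S.toL1 a h‖ * ‖leftTranslate μ h (ν n) - ν n‖ ∂μ :=
      integral_nonneg fun h => by positivity
    have hY : ‖M.left‖ * ‖e‖ * (‖D‖ * ‖w‖) ≤ L * C * (d * ‖w‖) := by
      refine mul_le_mul_of_nonneg_right ?_ (by positivity)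
      exact mul_le_mul_of_nonneg_left heC hL0
    calc (∫ h, ‖S.toL1 a h‖ * ‖leftTranslate μ h (ν n) - ν n‖ ∂μ) *
        (‖M.left‖ * ‖e‖ * (‖D‖ * ‖w‖)) ≤ ε₃ * (L * C * (d * ‖w‖)) :=
          mul_le_mul (hn a ha) hY (by positivity) hε₃.le
      _ ≤ ε / 6 := by rw [mul_comm]; exact hR3
  have t5 : ‖S.Theta M D (ν n) e (S.mul a w - S.mul w a)‖ ≤
      L * C * (d * (ε₁ * (1 + C) + ε₂ * (1 + ‖u‖))) := by
    refine (S.norm_Theta_le M D (ν n) e _).trans ?_
    have hc := S.commutator_bound a u v (hu a ha) (hv a ha) hvC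
    rw [← hwdef] at hc
    calc ‖ν n‖ * (‖M.left‖ * ‖e‖ * (‖D‖ * ‖S.mul a w - S.mul w a‖))
        ≤ 1 * (‖M.left‖ * ‖e‖ * (‖D‖ * ‖S.mul a w - S.mul w a‖)) :=
          mul_le_mul_of_nonneg_right (hν1 n) (by positivity)
      _ = ‖M.left‖ * ‖e‖ * (‖D‖ * ‖S.mul a w - S.mul w a‖) := one_mul _
      _ ≤ L * C * (d * (ε₁ * (1 + C) + ε₂ * (1 + ‖u‖))) :=
          mul_le_mul (mul_le_mul_of_nonneg_left heC hL0) (mul_le_mul_of_nonneg_left hc hd0)
            (by positivity) (by positivity)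
  have t6 : ‖I - M.left w (D a)‖ ≤ ε / 6 := by
    refine (S.averaged_part M D (ν n) (hν1 n) (hνi n) hK0 e w a hδ.le he').trans ?_
    calc ‖M.left‖ * δ * (‖D‖ * ‖a‖) ≤ L * δ * (d * A) :=
          mul_le_mul_of_nonneg_left (mul_le_mul_of_nonneg_left haA hd0) (by positivity)
      _ = L * (d * A) * δ := by ring
      _ ≤ ε / 6 := hδ6
  have htot : ‖-(M.left (a - S.mul a u) (D v)) + -(D (a - S.mul v a)) +
      M.left u (D (a - S.mul v a)) +
      (M.left a (S.Theta M D (ν n) e w) - S.Theta M D (ν n) e (S.mul a w)) +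
      S.Theta M D (ν n) e (S.mul a w - S.mul w a) + (I - M.left w (D a))‖ ≤
      L * ε₁ * (d * C) + d * ε₂ + L * ‖u‖ * (d * ε₂) + ε / 6 +
      L * C * (d * (ε₁ * (1 + C) + ε₂ * (1 + ‖u‖))) + ε / 6 := by
    refine (norm_add_le _ _).trans (add_le_add ?_ t6)
    refine (norm_add_le _ _).trans (add_le_add ?_ t5)
    refine (norm_add_le _ _).trans (add_le_add ?_ t4)
    refine (norm_add_le _ _).trans (add_le_add ?_ t3)
    exact (norm_add_le _ _).trans (add_le_add t1 t2)
  refine htot.trans ?_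
  have hsum : L * ε₁ * (d * C) + d * ε₂ + L * ‖u‖ * (d * ε₂) + ε / 6 +
      L * C * (d * (ε₁ * (1 + C) + ε₂ * (1 + ‖u‖))) + ε / 6 =
      (L * (d * C) + L * C * (d * (1 + C))) * ε₁ +
      (d + L * ‖u‖ * d + L * C * (d * (1 + ‖u‖))) * ε₂ + ε / 6 + ε / 6 := by ring
  rw [hsum]
  linarith

end Main

/-- The criterion for approximate amenability. -/
theorem isApproximatelyAmenable_of (hL : S.HasBddLeftAI) (hR : S.HasRightAI) (hG : HasReiter μ) :
    IsApproximatelyAmenable.{u, v} S := by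
  intro X _ _ _ M D hD
  classical
  have key : ∀ i : Finset S.Elem × ℕ, ∃ ξ : StrongDual ℂ X, ∀ a ∈ i.1,
      ‖M.dual.left a ξ - M.dual.right a ξ - D a‖ ≤ 1 / ((i.2 : ℝ) + 1) := fun i =>
    S.approx_contractible M.dual D hL hR hG hD i.1 (by positivity)
  choose ξ hξ using key
  refine ⟨Finset S.Elem × ℕ, inferInstance, inferInstance, inferInstance, ξ, fun a => ?_⟩
  rw [tendsto_iff_norm_sub_tendsto_zero]
  have h1 : Tendsto (fun i : Finset S.Elem × ℕ => 1 / ((i.2 : ℝ) + 1)) atTop (𝓝 0) := by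
    have h2 : Tendsto (fun i : Finset S.Elem × ℕ => i.2) atTop atTop := by
      rw [← prod_atTop_atTop_eq]
      exact tendsto_snd
    exact tendsto_one_div_add_atTop_nhds_zero_nat.comp h2
  refine squeeze_zero' (Eventually.of_forall fun _ => norm_nonneg _) ?_ h1
  filter_upwards [eventually_ge_atTop (({a} : Finset S.Elem), 0)] with i hi
  exact hξ i a (hi.1 (Finset.mem_singleton_self a))

end SegalAlgebra

end Pool.Agent.Helper87_Segal
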