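import Mathlib
import Pool.Agent.Helper87_Segal.Pointwise

/-!
Averages over compact open subgroups.
-/

set_option linter.unusedSectionVars false

open MeasureTheory Topology Filter
open scoped ENNReal

namespace Pool.Agent.Helper87_Segal

/-- A compact open subgroup. -/
structure COSub (G : Type*) [Group G] [TopologicalSpace G] where
  H : Subgroup G
  isOpen' : IsOpen (H : Set G)
  isCompact' : IsCompact (H : Set G)

variable {G : Type*} [Group G] [TopologicalSpace G] [IsTopologicalGroup G] [LocallyCompactSpace G]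
  [T2Space G] [SecondCountableTopology G] [MeasurableSpace G] [BorelSpace G]

namespace COSub

variable (U V W : COSub G) (μ : Measure G) [μ.IsHaarMeasure]

theorem measurableSet : MeasurableSet (U.H : Set G) := U.isOpen'.measurableSet

theorem measure_ne_top : μ (U.H : Set G) ≠ ∞ := U.isCompact'.measure_lt_top.ne

theorem measure_ne_zero : μ (U.H : Set G) ≠ 0 := (U.isOpen'.measure_pos μ ⟨1, U.H.one_mem⟩).ne'

/-- The normalisation constant. -/
noncomputable def cst : ℂ := ((μ (U.H : Set G)).toReal : ℂ)⁻¹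

theorem toReal_pos : 0 < (μ (U.H : Set G)).toReal :=
  ENNReal.toReal_pos (U.measure_ne_zero μ) (U.measure_ne_top μ)

theorem norm_cst : ‖U.cst μ‖ = ((μ (U.H : Set G)).toReal)⁻¹ := by
  rw [cst, norm_inv, Complex.norm_real, Real.norm_of_nonneg (U.toReal_pos μ).le]

theorem cst_mul : U.cst μ * ((μ (U.H : Set G)).toReal : ℂ) = 1 := by
  rw [cst]
  refine inv_mul_cancel₀ ?_
  exact_mod_cast (U.toReal_pos μ).ne'

/-- The normalised indicator function of a compact open subgroup. -/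
noncomputable def ind : Lp ℂ 1 μ :=
  indicatorConstLp 1 U.measurableSet (U.measure_ne_top μ) (U.cst μ)

theorem ind_coeFn : (U.ind μ : G → ℂ) =ᵐ[μ] (U.H : Set G).indicator fun _ => U.cst μ :=
  indicatorConstLp_coeFn

theorem norm_ind : ‖U.ind μ‖ = 1 := by
  rw [ind, norm_indicatorConstLp one_ne_zero ENNReal.one_ne_top, norm_cst]
  simp only [ENNReal.toReal_one, div_one, Real.rpow_one]
  exact inv_mul_cancel₀ (U.toReal_pos μ).ne'

theorem integral_ind : ∫ x, U.ind μ x ∂μ = 1 := by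
  rw [integral_congr_ae (U.ind_coeFn μ), integral_indicator U.measurableSet, setIntegral_const]
  rw [Complex.real_smul, mul_comm]
  exact U.cst_mul μ

variable {μ}

theorem leftTranslate_ind {g : G} (hg : g ∈ U.H) : leftTranslate μ g (U.ind μ) = U.ind μ := by
  apply Lp.ext
  have h1 := leftTranslate_coeFn μ g (U.ind μ)
  have h2 : (fun x => U.ind μ (g⁻¹ * x)) =ᵐ[μ]
      fun x => (U.H : Set G).indicator (fun _ => U.cst μ) (g⁻¹ * x) :=
    (measurePreserving_mul_left μ g⁻¹).quasiMeasurePreserving.ae_eq_comp (U.ind_coeFn μ)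
  refine h1.trans (h2.trans (EventuallyEq.trans ?_ (U.ind_coeFn μ).symm))
  filter_upwards with x
  by_cases hx : x ∈ (U.H : Set G)
  · have : g⁻¹ * x ∈ (U.H : Set G) := U.H.mul_mem (U.H.inv_mem hg) hx
    rw [Set.indicator_of_mem this, Set.indicator_of_mem hx]
  · have : g⁻¹ * x ∉ (U.H : Set G) := fun h => hx (by
      have := U.H.mul_mem hg h
      simpa using this)
    rw [Set.indicator_of_notMem this, Set.indicator_of_notMem hx]

section Rep

variable {E : Type*} [NormedAddCommGroup E] [NormedSpace ℂ E] [CompleteSpace E] (ρ : IsoRep G E)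

variable (μ) in
/-- The average of `e` over `U`. -/
noncomputable def avg (e : E) : E := ρ.integ (U.ind μ) e

theorem avg_eq (e : E) : U.avg μ ρ e = U.cst μ • ∫ h in (U.H : Set G), ρ.T h e ∂μ := by
  have h1 : U.avg μ ρ e = ∫ h, (U.H : Set G).indicator (fun h => U.cst μ • ρ.T h e) h ∂μ := by
    unfold avg IsoRep.integ
    refine integral_congr_ae ?_
    filter_upwards [U.ind_coeFn μ] with h hh
    rw [hh]
    by_cases hx : h ∈ (U.H : Set G)
    · rw [Set.indicator_of_mem hx, Set.indicator_of_mem hx]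
    · rw [Set.indicator_of_notMem hx, Set.indicator_of_notMem hx, zero_smul]
  rw [h1, integral_indicator U.measurableSet, integral_smul]

theorem clm_avg (φ : E →L[ℂ] ℂ) (e : E) :
    φ (U.avg μ ρ e) = U.cst μ * ∫ h in (U.H : Set G), φ (ρ.T h e) ∂μ := by
  rw [avg_eq, map_smul, smul_eq_mul, ← ContinuousLinearMap.integral_comp_comm φ
    ((ρ.T_cont e).continuousOn.integrableOn_compact (μ := μ) U.isCompact')]

theorem T_avg {v : G} (hv : v ∈ U.H) (e : E) : ρ.T v (U.avg μ ρ e) = U.avg μ ρ e := by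
  unfold avg
  rw [← ρ.integ_leftTranslate, U.leftTranslate_ind hv]

theorem cst_smul_const (e : E) : U.cst μ • ∫ _ in (U.H : Set G), e ∂μ = e := by
  rw [setIntegral_const, measureReal_def]
  have h2 : (U.cst μ * ((μ (U.H : Set G)).toReal : ℂ)) • e = e := by rw [U.cst_mul μ, one_smul]
  rwa [mul_smul, Complex.coe_smul] at h2

theorem avg_sub_eq (e : E) :
    U.avg μ ρ e - e = U.cst μ • ∫ h in (U.H : Set G), (ρ.T h e - e) ∂μ := by
  have hc : ∫ h in (U.H : Set G), (ρ.T h e - e) ∂μ =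
      (∫ h in (U.H : Set G), ρ.T h e ∂μ) - ∫ h in (U.H : Set G), e ∂μ := by
    refine integral_sub ?_ ?_
    · exact (ρ.T_cont e).continuousOn.integrableOn_compact U.isCompact'
    · exact continuous_const.continuousOn.integrableOn_compact U.isCompact'
  rw [hc, smul_sub, ← avg_eq, cst_smul_const]

theorem norm_avg_sub_le (e : E) {δ : ℝ} (hδ : ∀ v ∈ U.H, ‖ρ.T v e - e‖ ≤ δ) :
    ‖U.avg μ ρ e - e‖ ≤ δ := by
  rw [avg_sub_eq, norm_smul, norm_cst]
  have h1 : ‖∫ h in (U.H : Set G), (ρ.T h e - e) ∂μ‖ ≤ δ * (μ (U.H : Set G)).toReal :=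
    norm_setIntegral_le_of_norm_le_const (U.measure_ne_top μ).lt_top hδ
  have h2 := U.toReal_pos μ
  calc ((μ (U.H : Set G)).toReal)⁻¹ * ‖∫ h in (U.H : Set G), (ρ.T h e - e) ∂μ‖
      ≤ ((μ (U.H : Set G)).toReal)⁻¹ * (δ * (μ (U.H : Set G)).toReal) :=
        mul_le_mul_of_nonneg_left h1 (by positivity)
    _ = δ := by field_simp

theorem avg_of_inv {e : E} (he : ∀ v ∈ U.H, ρ.T v e = e) : U.avg μ ρ e = e := by
  have := U.norm_avg_sub_le (μ := μ) ρ e (δ := 0) (fun v hv => by rw [he v hv, sub_self, norm_zero])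
  exact sub_eq_zero.mp (norm_le_zero_iff.mp this)

theorem norm_avg_le (e : E) : ‖U.avg μ ρ e‖ ≤ ‖e‖ := by
  refine (ρ.norm_integ_le _ _).trans ?_
  rw [U.norm_ind, one_mul]

theorem avg_T {v : G} (e : E) (hc : ∀ h ∈ U.H, h * v = v * h) :
    U.avg μ ρ (ρ.T v e) = ρ.T v (U.avg μ ρ e) := by
  rw [avg_eq, avg_eq, map_smul]
  congr 1
  have h2 := ContinuousLinearMap.integral_comp_comm (ρ.T v).toContinuousLinearMap
    ((ρ.T_cont e).continuousOn.integrableOn_compact (μ := μ) U.isCompact')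
  simp only [LinearIsometry.coe_toContinuousLinearMap] at h2
  rw [← h2]
  refine setIntegral_congr_fun U.measurableSet ?_
  intro h hh
  simp only
  rw [← ρ.T_mul, ← ρ.T_mul, hc h hh]

/-- If `U ≤ W`, averaging over `U` is absorbed by averaging over `W`. -/
theorem avg_avg_of_le (e : E) (hUW : U.H ≤ W.H) (hc : ∀ h ∈ W.H, ∀ v ∈ W.H, h * v = v * h) :
    W.avg μ ρ (U.avg μ ρ e) = W.avg μ ρ e := by
  have h1 : W.avg μ ρ (U.avg μ ρ e) = ρ.integL (μ := μ) (W.ind μ) (U.avg μ ρ e) := rfl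
  rw [h1, U.avg_eq, map_smul, ← ContinuousLinearMap.integral_comp_comm _
    ((ρ.T_cont e).continuousOn.integrableOn_compact (μ := μ) U.isCompact')]
  have h2 : ∫ h in (U.H : Set G), ρ.integL (μ := μ) (W.ind μ) (ρ.T h e) ∂μ =
      ∫ _ in (U.H : Set G), W.avg μ ρ e ∂μ := by
    refine setIntegral_congr_fun U.measurableSet ?_
    intro h hh
    have hh' : h ∈ W.H := hUW hh
    change W.avg μ ρ (ρ.T h e) = W.avg μ ρ e
    rw [W.avg_T ρ e (fun k hk => hc k hk h hh'), W.T_avg ρ hh']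
  rw [h2, cst_smul_const]

/-- Averaging over `U` and then over `V` is averaging over `U V` (commutative case). -/
theorem avg_avg (e : E) (hUW : U.H ≤ W.H) (hVW : V.H ≤ W.H)
    (hc : ∀ h ∈ W.H, ∀ v ∈ W.H, h * v = v * h) (hUV : ∀ w ∈ W.H, ∃ u ∈ U.H, ∃ v ∈ V.H, w = u * v) :
    U.avg μ ρ (V.avg μ ρ e) = W.avg μ ρ e := by
  have hinv : ∀ w ∈ W.H, ρ.T w (U.avg μ ρ (V.avg μ ρ e)) = U.avg μ ρ (V.avg μ ρ e) := by
    intro w hw
    obtain ⟨u, hu, v, hv, rfl⟩ := hUV w hw
    rw [ρ.T_mul, ← U.avg_T ρ (V.avg μ ρ e) (fun h hh => hc h (hUW hh) v (hVW hv)),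
      V.T_avg ρ hv, U.T_avg ρ hu]
  rw [← W.avg_of_inv (μ := μ) ρ hinv, U.avg_avg_of_le W ρ _ hUW hc,
    V.avg_avg_of_le W ρ e hVW hc]

end Rep

end COSub

end Pool.Agent.Helper87_Segal
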