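import Mathlib

/-!
The group `G = (ℤ/2)^{ℤ ⊔ ℕ} ⋊ ℤ`, where `ℤ` shifts the coordinates in `ℤ` and fixes those in `ℕ`.
-/

set_option linter.unusedSectionVars false

open MeasureTheory Topology Filter
open scoped ENNReal

namespace Pool.Agent.Helper87_Segal

/-- The compact group `(ℤ/2)^{ℤ ⊔ ℕ}`. -/
abbrev KK : Type := ℤ ⊕ ℕ → ZMod 2

/-- The shift of the index set. -/
def sh (n : ℤ) : ℤ ⊕ ℕ → ℤ ⊕ ℕ := Sum.map (fun j => j - n) id

@[simp] theorem sh_inl (n j : ℤ) : sh n (Sum.inl j) = Sum.inl (j - n) := rfl
@[simp] theorem sh_inr (n : ℤ) (N : ℕ) : sh n (Sum.inr N) = Sum.inr N := rfl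

@[simp] theorem sh_zero (i : ℤ ⊕ ℕ) : sh 0 i = i := by
  cases i <;> simp

theorem sh_add (n m : ℤ) (i : ℤ ⊕ ℕ) : sh (n + m) i = sh m (sh n i) := by
  cases i
  · simp only [sh_inl, Sum.inl.injEq]; ring
  · simp

/-- The underlying type of the group. -/
structure GG : Type where
  x : KK
  n : ℤ

namespace GG

@[ext] theorem ext' {g h : GG} (h1 : g.x = h.x) (h2 : g.n = h.n) : g = h := by
  cases g; cases h; simp_all

instance : Mul GG := ⟨fun g h => ⟨fun i => g.x i + h.x (sh g.n i), g.n + h.n⟩⟩
instance : One GG := ⟨⟨0, 0⟩⟩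
instance : Inv GG := ⟨fun g => ⟨fun i => -g.x (sh (-g.n) i), -g.n⟩⟩

@[simp] theorem mul_x (g h : GG) (i : ℤ ⊕ ℕ) : (g * h).x i = g.x i + h.x (sh g.n i) := rfl
@[simp] theorem mul_n (g h : GG) : (g * h).n = g.n + h.n := rfl
@[simp] theorem one_x (i : ℤ ⊕ ℕ) : (1 : GG).x i = 0 := rfl
@[simp] theorem one_n : (1 : GG).n = 0 := rfl
@[simp] theorem inv_x (g : GG) (i : ℤ ⊕ ℕ) : (g⁻¹).x i = -g.x (sh (-g.n) i) := rfl
@[simp] theorem inv_n (g : GG) : (g⁻¹).n = -g.n := rfl

instance : Group GG where
  mul_assoc a b c := by
    apply GG.ext'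
    · funext i
      simp only [mul_x, mul_n, sh_add, add_assoc]
    · simp only [mul_n, add_assoc]
  one_mul a := by
    apply GG.ext'
    · funext i; simp
    · simp
  mul_one a := by
    apply GG.ext'
    · funext i; simp
    · simp
  inv_mul_cancel a := by
    apply GG.ext'
    · funext i
      simp only [mul_x, inv_x, inv_n, one_x, neg_add_cancel]
    · simp

/-- The identification of the underlying set with a product. -/
def equivProd : GG ≃ KK × ℤ where
  toFun g := (g.x, g.n)
  invFun p := ⟨p.1, p.2⟩
  left_inv _ := rfl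
  right_inv _ := rfl

instance : TopologicalSpace GG := TopologicalSpace.induced equivProd inferInstance

/-- The identification is a homeomorphism. -/
def homeoProd : GG ≃ₜ KK × ℤ := equivProd.toHomeomorphOfIsInducing ⟨rfl⟩

theorem continuous_x : Continuous (fun g : GG => g.x) :=
  continuous_fst.comp homeoProd.continuous

theorem continuous_n : Continuous (fun g : GG => g.n) :=
  continuous_snd.comp homeoProd.continuous

theorem continuous_mk {α : Type*} [TopologicalSpace α] {f : α → KK} {k : α → ℤ}
    (hf : Continuous f) (hk : Continuous k) : Continuous (fun a => (⟨f a, k a⟩ : GG)) :=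
  homeoProd.symm.continuous.comp (hf.prodMk hk)

theorem continuous_eval_sh (i : ℤ ⊕ ℕ) : Continuous (fun p : ℤ × KK => p.2 (sh p.1 i)) := by
  rw [continuous_prod_of_discrete_left]
  intro n
  exact continuous_apply (sh n i)

instance : IsTopologicalGroup GG where
  continuous_mul := by
    have : (fun p : GG × GG => p.1 * p.2) = fun p : GG × GG =>
      (⟨fun i => p.1.x i + p.2.x (sh p.1.n i), p.1.n + p.2.n⟩ : GG) := rfl
    rw [this]
    refine continuous_mk ?_ ?_
    · refine continuous_pi fun i => ?_
      have h1 : Continuous fun p : GG × GG => p.1.x i :=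
        (continuous_apply i).comp (continuous_x.comp continuous_fst)
      have h2 : Continuous fun p : GG × GG => p.2.x (sh p.1.n i) :=
        (continuous_eval_sh i).comp
          ((continuous_n.comp continuous_fst).prodMk (continuous_x.comp continuous_snd))
      exact h1.add h2
    · exact (continuous_n.comp continuous_fst).add (continuous_n.comp continuous_snd)
  continuous_inv := by
    have : (fun g : GG => g⁻¹) = fun g : GG =>
      (⟨fun i => -g.x (sh (-g.n) i), -g.n⟩ : GG) := rfl
    rw [this]
    refine continuous_mk ?_ continuous_n.neg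
    refine continuous_pi fun i => ?_
    exact ((continuous_eval_sh i).comp (continuous_n.neg.prodMk continuous_x)).neg

instance : T2Space GG := homeoProd.symm.t2Space
instance : LocallyCompactSpace GG := homeoProd.isClosedEmbedding.locallyCompactSpace
instance : SecondCountableTopology GG := homeoProd.isEmbedding.secondCountableTopology

instance : MeasurableSpace GG := borel GG
instance : BorelSpace GG := ⟨rfl⟩

end GG

end Pool.Agent.Helper87_Segal
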