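import Mathlib
import Pool.Agent.Helper87_Segal.Avg

/-!
Right approximate identities in `L¹(G)` from compact open subgroups, and the convolution of
normalised indicators.
-/

set_option linter.unusedSectionVars false

open MeasureTheory Topology Filter
open scoped ENNReal

namespace Pool.Agent.Helper87_Segal

variable {G : Type*} [Group G] [TopologicalSpace G] [IsTopologicalGroup G] [LocallyCompactSpace G]
  [T2Space G] [SecondCountableTopology G] [MeasurableSpace G] [BorelSpace G]

section Conv

variable {μ : Measure G} [μ.IsHaarMeasure]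

theorem conv_coeFn_of_ae (f g' : Lp ℂ 1 μ) (g : G → ℂ) (hg : Integrable g μ) (h : g' =ᵐ[μ] g) :
    (conv f g' : G → ℂ) =ᵐ[μ] fun x => ∫ y, f y * g (y⁻¹ * x) ∂μ := by
  have hint : Integrable (fun p : G × G => f p.1 * g (p.1⁻¹ * p.2)) (μ.prod μ) := by
    have h := (L1.integrable_coeFn f).mul_prod hg
    exact (measurePreserving_prod_inv_mul μ μ).integrable_comp_of_integrable h
  refine coeFn_integral_L1 (fun y => f y • (leftRep μ).T y g') ((leftRep μ).integrable_smul_T f g')
    (fun p : G × G => f p.1 * g (p.1⁻¹ * p.2)) hint ?_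
  filter_upwards with y
  have h2 : (fun x => g' (y⁻¹ * x)) =ᵐ[μ] fun x => g (y⁻¹ * x) :=
    (measurePreserving_mul_left μ y⁻¹).quasiMeasurePreserving.ae_eq_comp h
  filter_upwards [Lp.coeFn_smul (f y) ((leftRep μ).T y g'), leftTranslate_coeFn μ y g', h2]
    with x hx hx2 hx3
  rw [hx, Pi.smul_apply, leftRep_T, hx2, smul_eq_mul, hx3]

end Conv

namespace COSub

variable (U V W : COSub G) {μ : Measure G} [μ.IsHaarMeasure]

theorem integrable_indicator : Integrable ((U.H : Set G).indicator fun _ => U.cst μ) μ :=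
  (integrable_indicator_iff U.measurableSet).mpr (integrableOn_const (U.measure_ne_top μ))

theorem integral_indicator_cst : ∫ x, (U.H : Set G).indicator (fun _ => U.cst μ) x ∂μ = 1 := by
  rw [← integral_congr_ae (U.ind_coeFn μ), U.integral_ind]

theorem indicator_inv (x : G) (c : ℂ) :
    (U.H : Set G).indicator (fun _ => c) x⁻¹ = (U.H : Set G).indicator (fun _ => c) x := by
  by_cases hx : x ∈ (U.H : Set G)
  · have : x⁻¹ ∈ (U.H : Set G) := U.H.inv_mem hx
    rw [Set.indicator_of_mem this, Set.indicator_of_mem hx]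
  · have : x⁻¹ ∉ (U.H : Set G) := fun h => hx (by simpa using U.H.inv_mem h)
    rw [Set.indicator_of_notMem this, Set.indicator_of_notMem hx]

/-- `k_W * k_V = k_W` for `V ≤ W`. -/
theorem conv_ind_of_le (hVW : V.H ≤ W.H) : conv (W.ind μ) (V.ind μ) = W.ind μ := by
  apply Lp.ext
  have h1 := conv_coeFn_of_ae (W.ind μ) (V.ind μ) _ V.integrable_indicator (V.ind_coeFn μ)
  refine h1.trans (EventuallyEq.trans ?_ (W.ind_coeFn μ).symm)
  filter_upwards with x
  have h2 : ∫ y, W.ind μ y * (V.H : Set G).indicator (fun _ => V.cst μ) (y⁻¹ * x) ∂μ =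
      ∫ y, (W.H : Set G).indicator (fun _ => W.cst μ) y *
        (V.H : Set G).indicator (fun _ => V.cst μ) (y⁻¹ * x) ∂μ := by
    refine integral_congr_ae ?_
    filter_upwards [W.ind_coeFn μ] with y hy
    rw [hy]
  rw [h2]
  by_cases hx : x ∈ (W.H : Set G)
  · rw [Set.indicator_of_mem hx]
    have h3 : ∀ y, (W.H : Set G).indicator (fun _ => W.cst μ) y *
        (V.H : Set G).indicator (fun _ => V.cst μ) (y⁻¹ * x) =
        W.cst μ * (V.H : Set G).indicator (fun _ => V.cst μ) (x⁻¹ * y) := by
      intro y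
      have h4 : y⁻¹ * x = (x⁻¹ * y)⁻¹ := by group
      rw [h4, V.indicator_inv]
      by_cases hy : x⁻¹ * y ∈ (V.H : Set G)
      · have hyW : y ∈ (W.H : Set G) := by
          have := W.H.mul_mem hx (hVW hy)
          simpa using this
        rw [Set.indicator_of_mem hyW]
      · rw [Set.indicator_of_notMem hy, mul_zero, mul_zero]
    simp only [h3]
    rw [integral_const_mul, integral_mul_left_eq_self (fun y =>
      (V.H : Set G).indicator (fun _ => V.cst μ) y) x⁻¹, V.integral_indicator_cst, mul_one]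
  · rw [Set.indicator_of_notMem hx]
    have h3 : ∀ y, (W.H : Set G).indicator (fun _ => W.cst μ) y *
        (V.H : Set G).indicator (fun _ => V.cst μ) (y⁻¹ * x) = 0 := by
      intro y
      by_cases hy : y ∈ (W.H : Set G)
      · have : y⁻¹ * x ∉ (V.H : Set G) := fun h => hx (by
          have := W.H.mul_mem hy (hVW h)
          simpa using this)
        rw [Set.indicator_of_notMem this, mul_zero]
      · rw [Set.indicator_of_notMem hy, zero_mul]
    simp only [h3]
    simp

/-- `k_U * k_V = k_W` for `W = U V` commutative. -/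
theorem conv_ind (hUW : U.H ≤ W.H) (hVW : V.H ≤ W.H)
    (hc : ∀ h ∈ W.H, ∀ v ∈ W.H, h * v = v * h) (hUV : ∀ w ∈ W.H, ∃ u ∈ U.H, ∃ v ∈ V.H, w = u * v) :
    conv (U.ind μ) (V.ind μ) = W.ind μ := by
  have h1 : V.avg μ (leftRep μ) (V.ind μ) = V.ind μ :=
    V.avg_of_inv _ fun v hv => V.leftTranslate_ind hv
  have h2 := U.avg_avg V W (leftRep μ) (V.ind μ) (μ := μ) hUW hVW hc hUV
  rw [h1] at h2
  change U.avg μ (leftRep μ) (V.ind μ) = W.ind μ
  rw [h2]
  exact V.conv_ind_of_le W hVW

/-- Right translation by elements of a compact open subgroup preserves Haar measure. -/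
theorem measurePreserving_mul_right {v : G} (hv : v ∈ W.H) :
    MeasurePreserving (fun x => x * v) μ μ := by
  refine ⟨measurable_mul_const v, ?_⟩
  have hm : μ.map (· * v) = (μ.map (· * v)).haarScalarFactor μ • μ :=
    Measure.isMulLeftInvariant_eq_smul (μ.map (· * v)) μ
  set c := (μ.map (· * v)).haarScalarFactor μ with hcdef
  have h1 : μ.map (· * v) (W.H : Set G) = μ (W.H : Set G) := by
    rw [Measure.map_apply (measurable_mul_const v) W.measurableSet]
    congr 1
    ext x
    constructor
    · intro hx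
      have := W.H.mul_mem hx (W.H.inv_mem hv)
      simpa using this
    · intro hx
      exact W.H.mul_mem hx hv
  rw [hm, Measure.smul_apply, ENNReal.smul_def, smul_eq_mul] at h1
  have h2 : (c : ℝ≥0∞) = 1 := by
    have h3 : (c : ℝ≥0∞) * μ (W.H : Set G) = 1 * μ (W.H : Set G) := by rw [one_mul]; exact h1
    exact (ENNReal.mul_left_inj (W.measure_ne_zero μ) (W.measure_ne_top μ)).mp h3
  have h4 : c = 1 := by exact_mod_cast h2
  rw [hm, h4, one_smul]

section Right

open Classical in
/-- Retraction of `G` onto the open subgroup `W`. -/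
noncomputable def retr (v : G) : G := if v ∈ W.H then v else 1

theorem retr_mem (v : G) : W.retr v ∈ W.H := by
  unfold retr
  split_ifs with h
  · exact h
  · exact W.H.one_mem

theorem retr_of_mem {v : G} (hv : v ∈ W.H) : W.retr v = v := if_pos hv

theorem continuous_retr : Continuous W.retr := by
  classical
  have hcl : IsClopen (W.H : Set G) := ⟨W.isCompact'.isClosed, W.isOpen'⟩
  have h1 : frontier {v : G | v ∈ W.H} = ∅ := hcl.frontier_eq
  unfold retr
  refine Continuous.if ?_ continuous_id continuous_const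
  intro a ha
  rw [h1] at ha
  exact ha.elim

/-- Right translate by the retraction of `v`. -/
noncomputable def rT (a : Lp ℂ 1 μ) (v : G) : Lp ℂ 1 μ :=
  Lp.compMeasurePreserving (fun x => x * W.retr v) (W.measurePreserving_mul_right (W.retr_mem v)) a

theorem rT_coeFn (a : Lp ℂ 1 μ) (v : G) : W.rT a v =ᵐ[μ] fun x => a (x * W.retr v) :=
  Lp.coeFn_compMeasurePreserving a _

theorem norm_rT (a : Lp ℂ 1 μ) (v : G) : ‖W.rT a v‖ = ‖a‖ :=
  Lp.norm_compMeasurePreserving a _

theorem continuous_rT (a : Lp ℂ 1 μ) : Continuous (W.rT a) := by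
  have hc : Continuous (fun v : G =>
      (ContinuousMap.mk (fun x : G => x * W.retr v) (by fun_prop))) := by
    refine ContinuousMap.continuous_of_continuous_uncurry _ ?_
    simp only [Function.uncurry_def, ContinuousMap.coe_mk]
    exact continuous_snd.mul (W.continuous_retr.comp continuous_fst)
  exact Continuous.compMeasurePreservingLp (μ := μ) (ν := μ) (f := fun _ : G => a)
    continuous_const hc (fun v => W.measurePreserving_mul_right (W.retr_mem v)) ENNReal.one_ne_top

theorem rT_one (a : Lp ℂ 1 μ) : W.rT a 1 = a := by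
  apply Lp.ext
  refine (W.rT_coeFn a 1).trans ?_
  filter_upwards with x
  rw [W.retr_of_mem W.H.one_mem, mul_one]

theorem integrableOn_rT (a : Lp ℂ 1 μ) : Integrable (W.rT a) (μ.restrict (U.H : Set G)) :=
  (W.continuous_rT a).continuousOn.integrableOn_compact U.isCompact'

theorem integrable_mul_restrict (a : Lp ℂ 1 μ) (hUW : U.H ≤ W.H) :
    Integrable (fun p : G × G => a (p.2 * p.1)) ((μ.restrict (U.H : Set G)).prod μ) := by
  have : IsFiniteMeasure (μ.restrict (U.H : Set G)) :=
    ⟨by rw [Measure.restrict_apply_univ]; exact (U.measure_ne_top μ).lt_top⟩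
  have hm : AEStronglyMeasurable (fun p : G × G => a (p.2 * p.1))
      ((μ.restrict (U.H : Set G)).prod μ) :=
    ((Lp.stronglyMeasurable a).comp_measurable (measurable_snd.mul measurable_fst)).aestronglyMeasurable
  have hint : ∀ v ∈ U.H, Integrable (fun x => a (x * v)) μ := fun v hv =>
    (W.measurePreserving_mul_right (hUW hv)).integrable_comp_of_integrable (L1.integrable_coeFn a)
  rw [integrable_prod_iff hm]
  refine ⟨?_, ?_⟩
  · filter_upwards [ae_restrict_mem U.measurableSet] with v hv
    exact hint v hv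
  · have h1 : (fun v => ∫ x, ‖a (x * v)‖ ∂μ) =ᵐ[μ.restrict (U.H : Set G)] fun _ => ‖a‖ := by
      filter_upwards [ae_restrict_mem U.measurableSet] with v hv
      have := (W.norm_rT a v).symm
      rw [this, L1.norm_eq_integral_norm]
      refine integral_congr_ae ?_
      filter_upwards [W.rT_coeFn a v] with x hx
      rw [hx, W.retr_of_mem (hUW hv)]
    exact (integrable_congr h1).mpr (integrable_const _)

/-- Right convolution by `k_U` is averaging of right translates. -/
theorem conv_ind_eq_avg (a : Lp ℂ 1 μ) (hUW : U.H ≤ W.H) :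
    conv a (U.ind μ) = U.cst μ • ∫ v in (U.H : Set G), W.rT a v ∂μ := by
  apply Lp.ext
  have h1 := conv_coeFn_of_ae a (U.ind μ) _ U.integrable_indicator (U.ind_coeFn μ)
  have h2 := coeFn_integral_L1 (ν := μ.restrict (U.H : Set G)) (W.rT a) (U.integrableOn_rT W a)
    (fun p : G × G => a (p.2 * p.1)) (U.integrable_mul_restrict W a hUW) (by
      filter_upwards [ae_restrict_mem U.measurableSet] with v hv
      filter_upwards [W.rT_coeFn a v] with x hx
      rw [hx, W.retr_of_mem (hUW hv)])
  filter_upwards [h1, h2, Lp.coeFn_smul (U.cst μ) (∫ v in (U.H : Set G), W.rT a v ∂μ)]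
    with x hx1 hx2 hx3
  rw [hx1, hx3, Pi.smul_apply, hx2, ← integral_mul_left_eq_self _ x]
  have h3 : ∀ y, a (x * y) * (U.H : Set G).indicator (fun _ => U.cst μ) ((x * y)⁻¹ * x) =
      (U.H : Set G).indicator (fun y => U.cst μ * a (x * y)) y := by
    intro y
    have h4 : (x * y)⁻¹ * x = y⁻¹ := by group
    rw [h4, U.indicator_inv]
    by_cases hy : y ∈ (U.H : Set G)
    · rw [Set.indicator_of_mem hy, Set.indicator_of_mem hy, mul_comm]
    · rw [Set.indicator_of_notMem hy, Set.indicator_of_notMem hy, mul_zero]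
  simp only [h3]
  rw [integral_indicator U.measurableSet, smul_eq_mul, integral_const_mul]

theorem norm_conv_ind_sub_le (a : Lp ℂ 1 μ) (hUW : U.H ≤ W.H) {δ : ℝ}
    (hδ : ∀ v ∈ U.H, ‖W.rT a v - a‖ ≤ δ) : ‖conv a (U.ind μ) - a‖ ≤ δ := by
  have : IsFiniteMeasure (μ.restrict (U.H : Set G)) :=
    ⟨by rw [Measure.restrict_apply_univ]; exact (U.measure_ne_top μ).lt_top⟩
  have h5 : U.cst μ • ∫ _ in (U.H : Set G), a ∂μ = a := U.cst_smul_const a
  have h0 : conv a (U.ind μ) - a = U.cst μ • ∫ v in (U.H : Set G), (W.rT a v - a) ∂μ := by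
    rw [integral_sub (U.integrableOn_rT W a) (integrable_const a), smul_sub, h5,
      ← U.conv_ind_eq_avg W a hUW]
  rw [h0, norm_smul, norm_cst]
  have h1 : ‖∫ v in (U.H : Set G), (W.rT a v - a) ∂μ‖ ≤ δ * (μ (U.H : Set G)).toReal :=
    norm_setIntegral_le_of_norm_le_const (U.measure_ne_top μ).lt_top hδ
  have h2 := U.toReal_pos μ
  calc ((μ (U.H : Set G)).toReal)⁻¹ * ‖∫ v in (U.H : Set G), (W.rT a v - a) ∂μ‖
      ≤ ((μ (U.H : Set G)).toReal)⁻¹ * (δ * (μ (U.H : Set G)).toReal) :=
        mul_le_mul_of_nonneg_left h1 (by positivity)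
    _ = δ := by field_simp

/-- The normalised indicators of small subgroups of `W` form a right approximate identity. -/
theorem exists_nhds_conv_ind (a : Lp ℂ 1 μ) {ε : ℝ} (hε : 0 < ε) :
    ∃ N ∈ 𝓝 (1 : G), ∀ U : COSub G, U.H ≤ W.H → (U.H : Set G) ⊆ N →
      ‖conv a (U.ind μ) - a‖ ≤ ε := by
  have h1 : Tendsto (fun v => ‖W.rT a v - a‖) (𝓝 1) (𝓝 0) := by
    have hcont : Continuous fun v => ‖W.rT a v - a‖ :=
      ((W.continuous_rT a).sub continuous_const).norm
    have := hcont.tendsto 1
    simpa [W.rT_one] using this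
  refine ⟨_, h1.eventually (eventually_le_nhds hε), fun U hUW hUN => ?_⟩
  exact U.norm_conv_ind_sub_le W a hUW fun v hv => hUN hv

end Right

end COSub

end Pool.Agent.Helper87_Segal
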