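import Mathlib
import Pool.Agent.Helper87_Segal.RightAI
import Pool.Agent.Helper87_Segal.Group

/-!
The compact open subgroups `U_T` of the group `GG` and the test functions on it.
-/

set_option linter.unusedSectionVars false

open MeasureTheory Topology Filter
open scoped ENNReal

namespace Pool.Agent.Helper87_Segal

open GG

/-- The subgroup of the elements `(x, 0)` with `x i = 0` for `i ∈ T`. -/
def USub (T : Finset (ℤ ⊕ ℕ)) : Subgroup GG where
  carrier := {g | g.n = 0 ∧ ∀ i ∈ T, g.x i = 0}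
  one_mem' := ⟨rfl, fun _ _ => rfl⟩
  mul_mem' := by
    rintro a b ⟨ha1, ha2⟩ ⟨hb1, hb2⟩
    refine ⟨by simp [ha1, hb1], fun i hi => ?_⟩
    rw [mul_x, ha1, sh_zero, ha2 i hi, hb2 i hi, add_zero]
  inv_mem' := by
    rintro a ⟨ha1, ha2⟩
    refine ⟨by simp [ha1], fun i hi => ?_⟩
    rw [inv_x, ha1, neg_zero, sh_zero, ha2 i hi, neg_zero]

theorem mem_USub {T : Finset (ℤ ⊕ ℕ)} {g : GG} :
    g ∈ USub T ↔ g.n = 0 ∧ ∀ i ∈ T, g.x i = 0 := Iff.rfl

theorem isOpen_USub (T : Finset (ℤ ⊕ ℕ)) : IsOpen (USub T : Set GG) := by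
  have h1 : (USub T : Set GG) = {g : GG | g.n = 0} ∩ ⋂ i ∈ T, {g : GG | g.x i = 0} := by
    ext g
    simp [mem_USub]
  rw [h1]
  refine IsOpen.inter ?_ ?_
  · exact (isOpen_discrete {(0 : ℤ)}).preimage continuous_n
  · refine isOpen_biInter_finset fun i _ => ?_
    exact (isOpen_discrete {(0 : ZMod 2)}).preimage ((continuous_apply i).comp continuous_x)

theorem isCompact_level (n : ℤ) : IsCompact {g : GG | g.n = n} := by
  have h1 : {g : GG | g.n = n} = (fun x : KK => (⟨x, n⟩ : GG)) '' Set.univ := by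
    ext g
    constructor
    · intro hg
      exact ⟨g.x, Set.mem_univ _, GG.ext' rfl (Eq.symm hg)⟩
    · rintro ⟨x, -, rfl⟩
      rfl
  rw [h1]
  exact isCompact_univ.image (continuous_mk continuous_id continuous_const)

theorem isCompact_USub (T : Finset (ℤ ⊕ ℕ)) : IsCompact (USub T : Set GG) := by
  refine (isCompact_level 0).of_isClosed_subset ?_ (fun g hg => hg.1)
  have h1 : (USub T : Set GG) = {g : GG | g.n = 0} ∩ ⋂ i ∈ T, {g : GG | g.x i = 0} := by
    ext g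
    simp [mem_USub]
  rw [h1]
  refine IsClosed.inter ?_ ?_
  · exact (isClosed_discrete {(0 : ℤ)}).preimage continuous_n
  · refine isClosed_biInter fun i _ => ?_
    exact (isClosed_discrete {(0 : ZMod 2)}).preimage ((continuous_apply i).comp continuous_x)

/-- The compact open subgroup `U_T`. -/
def UU (T : Finset (ℤ ⊕ ℕ)) : COSub GG := ⟨USub T, isOpen_USub T, isCompact_USub T⟩

@[simp] theorem UU_H (T : Finset (ℤ ⊕ ℕ)) : (UU T).H = USub T := rfl

theorem USub_anti {T T' : Finset (ℤ ⊕ ℕ)} (h : T ⊆ T') : USub T' ≤ USub T :=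
  fun _ hg => ⟨hg.1, fun i hi => hg.2 i (h hi)⟩

theorem USub_comm {T : Finset (ℤ ⊕ ℕ)} : ∀ h ∈ USub T, ∀ v ∈ USub T, h * v = v * h := by
  rintro h ⟨h1, -⟩ v ⟨h2, -⟩
  apply GG.ext'
  · funext i
    rw [mul_x, mul_x, h1, h2, sh_zero, add_comm]
  · rw [mul_n, mul_n, add_comm]

theorem USub_split (T T' : Finset (ℤ ⊕ ℕ)) :
    ∀ w ∈ USub (T ∩ T'), ∃ u ∈ USub T, ∃ v ∈ USub T', w = u * v := by
  classical
  rintro w ⟨hw1, hw2⟩
  refine ⟨⟨fun i => if i ∈ T then 0 else w.x i, 0⟩, ⟨rfl, fun i hi => if_pos hi⟩,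
    ⟨fun i => if i ∈ T then w.x i else 0, 0⟩, ⟨rfl, fun i hi => ?_⟩, ?_⟩
  · by_cases h : i ∈ T
    · simp only [h, if_true]
      exact hw2 i (Finset.mem_inter.mpr ⟨h, hi⟩)
    · simp [h]
  · apply GG.ext'
    · funext i
      simp only [mul_x, sh_zero]
      split_ifs <;> simp
    · simp [hw1]

theorem exists_USub_subset {N : Set GG} (hN : N ∈ 𝓝 (1 : GG)) :
    ∃ T : Finset (ℤ ⊕ ℕ), (USub T : Set GG) ⊆ N := by
  have h1 : Continuous (fun x : KK => (⟨x, 0⟩ : GG)) := continuous_mk continuous_id continuous_const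
  have h2 : (fun x : KK => (⟨x, 0⟩ : GG)) ⁻¹' N ∈ 𝓝 (0 : KK) := h1.continuousAt.preimage_mem_nhds hN
  obtain ⟨O, hO, hOo, hO0⟩ := mem_nhds_iff.mp h2
  obtain ⟨I, u, hu, hIu⟩ := isOpen_pi_iff.mp hOo 0 hO0
  refine ⟨I, fun g hg => ?_⟩
  have h3 : g.x ∈ O := hIu (fun i hi => by
    have h4 := hg.2 i hi
    rw [h4]
    exact (hu i hi).2)
  have h4 := hO h3
  have h5 : (⟨g.x, 0⟩ : GG) = g := GG.ext' rfl hg.1.symm
  rw [Set.mem_preimage, h5] at h4
  exact h4

/-- The nontrivial character of `ℤ/2`. -/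
noncomputable def sgn (a : ZMod 2) : ℂ := if a = 0 then 1 else -1

theorem sgn_zero : sgn 0 = 1 := if_pos rfl
theorem sgn_one : sgn 1 = -1 := if_neg (by decide)

theorem sgn_add (a b : ZMod 2) : sgn (a + b) = sgn a * sgn b := by
  have hd : ∀ a : ZMod 2, a = 0 ∨ a = 1 := by decide
  have h11 : (1 : ZMod 2) + 1 = 0 := by decide
  rcases hd a with rfl | rfl <;> rcases hd b with rfl | rfl <;>
    simp [sgn_zero, sgn_one, h11]

theorem norm_sgn (a : ZMod 2) : ‖sgn a‖ = 1 := by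
  unfold sgn
  split_ifs <;> simp

theorem sgn_mul_self (a : ZMod 2) : sgn a * sgn a = 1 := by
  unfold sgn
  split_ifs <;> simp

/-- Coordinate characters. -/
noncomputable def ch (i : ℤ ⊕ ℕ) (g : GG) : ℂ := sgn (g.x i)

theorem ch_mul (i : ℤ ⊕ ℕ) (g h : GG) : ch i (g * h) = ch i g * ch (sh g.n i) h := by
  simp only [ch, mul_x, sgn_add]

theorem norm_ch (i : ℤ ⊕ ℕ) (g : GG) : ‖ch i g‖ = 1 := norm_sgn _

theorem ch_mul_self (i : ℤ ⊕ ℕ) (g : GG) : ch i g * ch i g = 1 := sgn_mul_self _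

theorem continuous_ch (i : ℤ ⊕ ℕ) : Continuous (ch i) := by
  have h1 : Continuous sgn := continuous_of_discreteTopology
  exact h1.comp ((continuous_apply i).comp continuous_x)

/-- The test functions `(x, n) ↦ (-1)^{x_j + x_N}` for `j ∈ ℤ`, `N ∈ ℕ`. -/
noncomputable def test (j : ℤ) (N : ℕ) (g : GG) : ℂ := ch (Sum.inl j) g * ch (Sum.inr N) g

theorem test_mul (j : ℤ) (N : ℕ) (g h : GG) :
    test j N (g * h) = test j N g * test (j - g.n) N h := by
  simp only [test, ch_mul, sh_inl, sh_inr]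
  ring

theorem norm_test (j : ℤ) (N : ℕ) (g : GG) : ‖test j N g‖ = 1 := by
  rw [test, norm_mul, norm_ch, norm_ch, one_mul]

theorem continuous_test (j : ℤ) (N : ℕ) : Continuous (test j N) :=
  (continuous_ch _).mul (continuous_ch _)

/-- The element `δ_i` of `KK ⊆ GG`. -/
def delta (i : ℤ ⊕ ℕ) : GG := ⟨Pi.single i 1, 0⟩

theorem delta_mem {i : ℤ ⊕ ℕ} {T : Finset (ℤ ⊕ ℕ)} (h : i ∉ T) : delta i ∈ USub T :=
  ⟨rfl, fun k hk => by
    have : k ≠ i := fun h' => h (h' ▸ hk)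
    simp [delta, this]⟩

theorem ch_delta_self (i : ℤ ⊕ ℕ) : ch i (delta i) = -1 := by
  simp [ch, delta, sgn_one]

theorem ch_delta_ne {i k : ℤ ⊕ ℕ} (h : k ≠ i) : ch k (delta i) = 1 := by
  simp [ch, delta, h, sgn_zero]

@[simp] theorem delta_n (i : ℤ ⊕ ℕ) : (delta i).n = 0 := rfl

/-- The element generating `ℤ`. -/
def yy (m : ℤ) : GG := ⟨0, m⟩

@[simp] theorem yy_n (m : ℤ) : (yy m).n = m := rfl
@[simp] theorem yy_x (m : ℤ) : (yy m).x = 0 := rfl

theorem test_yy (j : ℤ) (N : ℕ) (m : ℤ) : test j N (yy m) = 1 := by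
  simp [test, ch, sgn_zero]

section Phi

variable (μ : Measure GG) [μ.IsHaarMeasure]

/-- The test functionals on `L¹(G)`. -/
noncomputable def phi (j : ℤ) (N : ℕ) : Lp ℂ 1 μ →L[ℂ] ℂ :=
  pairing μ (test j N) (continuous_test j N).measurable (fun g => (norm_test j N g).le)

theorem phi_apply (j : ℤ) (N : ℕ) (f : Lp ℂ 1 μ) : phi μ j N f = ∫ g, f g * test j N g ∂μ := rfl

theorem norm_phi_le (j : ℤ) (N : ℕ) (f : Lp ℂ 1 μ) : ‖phi μ j N f‖ ≤ ‖f‖ :=
  norm_pairing_le _ _ _ f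

theorem phi_leftTranslate (j : ℤ) (N : ℕ) (g : GG) (f : Lp ℂ 1 μ) :
    phi μ j N (leftTranslate μ g f) = test j N g * phi μ (j - g.n) N f := by
  rw [phi_apply, phi_apply]
  have h1 : ∫ x, leftTranslate μ g f x * test j N x ∂μ = ∫ x, f (g⁻¹ * x) * test j N x ∂μ := by
    refine integral_congr_ae ?_
    filter_upwards [leftTranslate_coeFn μ g f] with x hx
    rw [hx]
  rw [h1, ← integral_mul_left_eq_self _ g, ← integral_const_mul]
  congr 1
  ext x
  rw [inv_mul_cancel_left, test_mul]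
  ring

/-- Integrals of characters over `U_T`. -/
theorem setIntegral_eq_zero {T : Finset (ℤ ⊕ ℕ)} {v : GG} (hv : v ∈ USub T) {F : GG → ℂ}
    (hF : ∀ g ∈ USub T, F (v * g) = -F g) : ∫ g in (USub T : Set GG), F g ∂μ = 0 := by
  have hm : MeasurableSet (USub T : Set GG) := (isOpen_USub T).measurableSet
  have h1 : ∫ g in (USub T : Set GG), F g ∂μ = -∫ g in (USub T : Set GG), F g ∂μ := by
    rw [← integral_indicator hm]
    conv_lhs => rw [← integral_mul_left_eq_self _ v]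
    rw [← integral_neg]
    congr 1
    ext g
    by_cases hg : g ∈ (USub T : Set GG)
    · have : v * g ∈ (USub T : Set GG) := (USub T).mul_mem hv hg
      rw [Set.indicator_of_mem this, Set.indicator_of_mem hg, hF g hg]
    · have : v * g ∉ (USub T : Set GG) := fun h => hg (by
        have := (USub T).mul_mem ((USub T).inv_mem hv) h
        simpa using this)
      rw [Set.indicator_of_notMem this, Set.indicator_of_notMem hg, neg_zero]
  have h2 : (2 : ℂ) * ∫ g in (USub T : Set GG), F g ∂μ = 0 := by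
    linear_combination h1
  simpa using h2

theorem phi_ind_eq (j : ℤ) (N : ℕ) (T : Finset (ℤ ⊕ ℕ)) :
    phi μ j N ((UU T).ind μ) = (UU T).cst μ * ∫ g in (USub T : Set GG), test j N g ∂μ := by
  rw [phi_apply, ← integral_const_mul, ← integral_indicator (isOpen_USub T).measurableSet]
  refine integral_congr_ae ?_
  filter_upwards [(UU T).ind_coeFn μ] with g hg
  rw [hg]
  by_cases h : g ∈ (USub T : Set GG)
  · rw [Set.indicator_of_mem h]
    have h' : g ∈ ((UU T).H : Set GG) := h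
    rw [Set.indicator_of_mem h']
  · rw [Set.indicator_of_notMem h]
    have h' : g ∉ ((UU T).H : Set GG) := h
    rw [Set.indicator_of_notMem h', zero_mul]

theorem phi_ind_of_mem {j : ℤ} {N : ℕ} {T : Finset (ℤ ⊕ ℕ)} (h1 : Sum.inl j ∈ T)
    (h2 : Sum.inr N ∈ T) : phi μ j N ((UU T).ind μ) = 1 := by
  rw [phi_ind_eq]
  have h3 : ∫ g in (USub T : Set GG), test j N g ∂μ = ∫ _ in (USub T : Set GG), (1 : ℂ) ∂μ := by
    refine setIntegral_congr_fun (isOpen_USub T).measurableSet ?_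
    intro g hg
    simp only [test, ch]
    rw [hg.2 _ h1, hg.2 _ h2, sgn_zero, one_mul]
  rw [h3]
  exact (UU T).cst_smul_const (μ := μ) (1 : ℂ)

theorem phi_ind_of_inl_notMem {j : ℤ} {N : ℕ} {T : Finset (ℤ ⊕ ℕ)} (h1 : Sum.inl j ∉ T) :
    phi μ j N ((UU T).ind μ) = 0 := by
  rw [phi_ind_eq, setIntegral_eq_zero μ (delta_mem h1), mul_zero]
  intro g _
  rw [test_mul, delta_n, sub_zero, test, ch_delta_self, ch_delta_ne (by simp)]
  ring

theorem phi_ind_of_inr_notMem {j : ℤ} {N : ℕ} {T : Finset (ℤ ⊕ ℕ)} (h1 : Sum.inr N ∉ T) :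
    phi μ j N ((UU T).ind μ) = 0 := by
  rw [phi_ind_eq, setIntegral_eq_zero μ (delta_mem h1), mul_zero]
  intro g _
  rw [test_mul, delta_n, sub_zero, test, ch_delta_self, ch_delta_ne (by simp)]
  ring

/-- `phi j N (f * g) = 0` as soon as all `phi k N g` vanish. -/
theorem phi_conv_eq_zero (j : ℤ) (N : ℕ) (f g : Lp ℂ 1 μ) (hg : ∀ k, phi μ k N g = 0) :
    phi μ j N (conv f g) = 0 := by
  unfold conv IsoRep.integ
  have h := ContinuousLinearMap.integral_comp_comm (phi μ j N)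
    ((leftRep μ).integrable_smul_T f g)
  refine h.symm.trans ?_
  simp only [map_smul, leftRep_T, phi_leftTranslate, hg, mul_zero, smul_zero, integral_zero]

end Phi

end Pool.Agent.Helper87_Segal
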