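import Mathlib
import Pool.Agent.Helper87_Segal.Subgroups
import Pool.Agent.Helper87_Segal.Abstract

/-!
The Segal algebra `{f ∈ L¹(G) : ∑_N 4^N sup_j |∫ f(x,n) (-1)^{x_j + x_N}| < ∞}`.
-/

set_option linter.unusedSectionVars false

open MeasureTheory Topology Filter
open scoped ENNReal

namespace Pool.Agent.Helper87_Segal

open GG

variable (μ : Measure GG) [μ.IsHaarMeasure]

/-- The seminorm `sup_j |phi j N f|`. -/
noncomputable def sN (N : ℕ) (f : Lp ℂ 1 μ) : ℝ := ⨆ j : ℤ, ‖phi μ j N f‖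

theorem bddAbove_phi (N : ℕ) (f : Lp ℂ 1 μ) : BddAbove (Set.range fun j : ℤ => ‖phi μ j N f‖) :=
  ⟨‖f‖, by rintro _ ⟨j, rfl⟩; exact norm_phi_le μ j N f⟩

theorem norm_phi_le_sN (j : ℤ) (N : ℕ) (f : Lp ℂ 1 μ) : ‖phi μ j N f‖ ≤ sN μ N f :=
  le_ciSup (bddAbove_phi μ N f) j

variable {μ} in
theorem sN_le {N : ℕ} {f : Lp ℂ 1 μ} {C : ℝ} (h : ∀ j, ‖phi μ j N f‖ ≤ C) : sN μ N f ≤ C :=
  ciSup_le h

theorem sN_nonneg (N : ℕ) (f : Lp ℂ 1 μ) : 0 ≤ sN μ N f :=
  (norm_nonneg _).trans (norm_phi_le_sN μ 0 N f)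

theorem sN_le_norm (N : ℕ) (f : Lp ℂ 1 μ) : sN μ N f ≤ ‖f‖ := sN_le fun j => norm_phi_le μ j N f

theorem sN_add (N : ℕ) (f g : Lp ℂ 1 μ) : sN μ N (f + g) ≤ sN μ N f + sN μ N g :=
  sN_le fun j => by
    rw [map_add]
    exact (norm_add_le _ _).trans (add_le_add (norm_phi_le_sN μ j N f) (norm_phi_le_sN μ j N g))

theorem sN_smul (N : ℕ) (c : ℂ) (f : Lp ℂ 1 μ) : sN μ N (c • f) = ‖c‖ * sN μ N f := by
  unfold sN
  simp only [map_smul, norm_smul]
  rw [Real.mul_iSup_of_nonneg (norm_nonneg c)]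

theorem sN_zero (N : ℕ) : sN μ N (0 : Lp ℂ 1 μ) = 0 := by
  have := sN_smul μ N 0 (0 : Lp ℂ 1 μ)
  simpa using this

theorem sN_neg (N : ℕ) (f : Lp ℂ 1 μ) : sN μ N (-f) = sN μ N f := by
  have := sN_smul μ N (-1) f
  simpa using this

theorem sN_sub (N : ℕ) (f g : Lp ℂ 1 μ) : sN μ N (f - g) ≤ sN μ N f + sN μ N g := by
  rw [sub_eq_add_neg, ← sN_neg μ N g]
  exact sN_add μ N f (-g)

theorem sN_leftTranslate (N : ℕ) (g : GG) (f : Lp ℂ 1 μ) :
    sN μ N (leftTranslate μ g f) = sN μ N f := by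
  unfold sN
  simp only [phi_leftTranslate, norm_mul, norm_test, one_mul]
  exact (Equiv.subRight g.n).iSup_comp (g := fun j => ‖phi μ j N f‖)

/-- The weighted summands. -/
noncomputable def ws (f : Lp ℂ 1 μ) (N : ℕ) : ℝ := 4 ^ N * sN μ N f

theorem ws_nonneg (f : Lp ℂ 1 μ) (N : ℕ) : 0 ≤ ws μ f N :=
  mul_nonneg (by positivity) (sN_nonneg μ N f)

theorem ws_le (f : Lp ℂ 1 μ) (N : ℕ) : ws μ f N ≤ 4 ^ N * ‖f‖ :=
  mul_le_mul_of_nonneg_left (sN_le_norm μ N f) (by positivity)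

theorem ws_add (f g : Lp ℂ 1 μ) (N : ℕ) : ws μ (f + g) N ≤ ws μ f N + ws μ g N := by
  unfold ws
  rw [← mul_add]
  exact mul_le_mul_of_nonneg_left (sN_add μ N f g) (by positivity)

theorem ws_sub (f g : Lp ℂ 1 μ) (N : ℕ) : ws μ (f - g) N ≤ ws μ f N + ws μ g N := by
  unfold ws
  rw [← mul_add]
  exact mul_le_mul_of_nonneg_left (sN_sub μ N f g) (by positivity)

theorem ws_smul (c : ℂ) (f : Lp ℂ 1 μ) (N : ℕ) : ws μ (c • f) N = ‖c‖ * ws μ f N := by
  unfold ws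
  rw [sN_smul]; ring

theorem ws_leftTranslate (g : GG) (f : Lp ℂ 1 μ) : ws μ (leftTranslate μ g f) = ws μ f := by
  funext N
  unfold ws
  rw [sN_leftTranslate]

/-- The carrier of the Segal algebra. -/
noncomputable def carr : Submodule ℂ (Lp ℂ 1 μ) where
  carrier := {f | Summable (ws μ f)}
  add_mem' {f g} hf hg :=
    Summable.of_nonneg_of_le (ws_nonneg μ _) (ws_add μ f g) (hf.add hg)
  zero_mem' := by
    have : ws μ (0 : Lp ℂ 1 μ) = fun _ => 0 := by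
      funext N
      simp [ws, sN_zero]
    change Summable (ws μ (0 : Lp ℂ 1 μ))
    rw [this]
    exact summable_zero
  smul_mem' c f hf := by
    change Summable (ws μ (c • f))
    have : ws μ (c • f) = fun N => ‖c‖ * ws μ f N := by
      funext N; exact ws_smul μ c f N
    rw [this]
    exact Summable.mul_left _ hf

theorem mem_carr {f : Lp ℂ 1 μ} : f ∈ carr μ ↔ Summable (ws μ f) := Iff.rfl

/-- The weighted part of the norm. -/
noncomputable def wnorm (f : Lp ℂ 1 μ) : ℝ := ∑' N, ws μ f N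

theorem wnorm_nonneg (f : Lp ℂ 1 μ) : 0 ≤ wnorm μ f := tsum_nonneg (ws_nonneg μ f)

variable {μ} in
theorem wnorm_add_le {f g : Lp ℂ 1 μ} (hf : f ∈ carr μ) (hg : g ∈ carr μ) :
    wnorm μ (f + g) ≤ wnorm μ f + wnorm μ g := by
  unfold wnorm
  rw [← hf.tsum_add hg]
  exact ((carr μ).add_mem hf hg : Summable (ws μ (f + g))).tsum_le_tsum (ws_add μ f g) (hf.add hg)

theorem wnorm_smul (c : ℂ) (f : Lp ℂ 1 μ) : wnorm μ (c • f) = ‖c‖ * wnorm μ f := by
  unfold wnorm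
  simp only [ws_smul, tsum_mul_left]

theorem wnorm_leftTranslate (g : GG) (f : Lp ℂ 1 μ) :
    wnorm μ (leftTranslate μ g f) = wnorm μ f := by
  unfold wnorm
  rw [ws_leftTranslate]

/-- Finitely supported weights: membership and bound. -/
theorem mem_carr_of_finite {f : Lp ℂ 1 μ} (N₀ : ℕ) (h : ∀ N ≥ N₀, sN μ N f = 0) : f ∈ carr μ := by
  refine summable_of_ne_finset_zero (s := Finset.range N₀) ?_
  intro N hN
  have : N₀ ≤ N := by simpa using hN
  simp [ws, h N this]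

theorem sum_ws_le (F : Finset ℕ) (f g : Lp ℂ 1 μ) :
    ∑ N ∈ F, ws μ f N ≤ ∑ N ∈ F, ws μ (f - g) N + (∑ N ∈ F, (4 : ℝ) ^ N) * ‖g‖ := by
  rw [Finset.sum_mul, ← Finset.sum_add_distrib]
  refine Finset.sum_le_sum fun N _ => ?_
  have h1 := ws_add μ (f - g) g N
  rw [sub_add_cancel] at h1
  exact h1.trans (add_le_add_right (ws_le μ g N) _)

theorem complete_aux (u : ℕ → carr μ)
    (hu : ∀ ε : ℝ, 0 < ε → ∃ N : ℕ, ∀ m ≥ N, ∀ n ≥ N,
      ‖((u m - u n : carr μ) : Lp ℂ 1 μ)‖ + wnorm μ ((u m - u n : carr μ) : Lp ℂ 1 μ) < ε) :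
    ∃ f : carr μ, Tendsto (fun n => ‖((u n - f : carr μ) : Lp ℂ 1 μ)‖ +
      wnorm μ ((u n - f : carr μ) : Lp ℂ 1 μ)) atTop (𝓝 0) := by
  have hc : CauchySeq (fun n => ((u n : carr μ) : Lp ℂ 1 μ)) := by
    rw [Metric.cauchySeq_iff]
    intro ε hε
    obtain ⟨N, hN⟩ := hu ε hε
    refine ⟨N, fun m hm n hn => ?_⟩
    rw [dist_eq_norm]
    have h1 := hN m hm n hn
    have h2 := wnorm_nonneg μ ((u m - u n : carr μ) : Lp ℂ 1 μ)
    rw [Submodule.coe_sub] at h1 h2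
    linarith
  obtain ⟨f, hf⟩ := cauchySeq_tendsto_of_complete hc
  have key : ∀ ε : ℝ, 0 < ε → ∃ N : ℕ, ∀ m ≥ N, ‖((u m : carr μ) : Lp ℂ 1 μ) - f‖ ≤ ε ∧
      ∀ F : Finset ℕ, ∑ N ∈ F, ws μ (((u m : carr μ) : Lp ℂ 1 μ) - f) N ≤ ε := by
    intro ε hε
    obtain ⟨N, hN⟩ := hu ε hε
    refine ⟨N, fun m hm => ⟨?_, fun F => ?_⟩⟩
    · have h1 : Tendsto (fun n => ‖((u m : carr μ) : Lp ℂ 1 μ) - ((u n : carr μ) : Lp ℂ 1 μ)‖) atTop
          (𝓝 ‖((u m : carr μ) : Lp ℂ 1 μ) - f‖) := (tendsto_const_nhds.sub hf).norm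
      refine le_of_tendsto h1 ?_
      filter_upwards [eventually_ge_atTop N] with n hn
      have h1 := hN m hm n hn
      have h2 := wnorm_nonneg μ ((u m - u n : carr μ) : Lp ℂ 1 μ)
      rw [Submodule.coe_sub] at h1 h2
      linarith
    · have h1 : Tendsto (fun n => ε + (∑ N ∈ F, (4 : ℝ) ^ N) * ‖((u n : carr μ) : Lp ℂ 1 μ) - f‖) atTop
          (𝓝 (ε + (∑ N ∈ F, (4 : ℝ) ^ N) * 0)) := by
        refine tendsto_const_nhds.add (Tendsto.const_mul _ ?_)
        exact tendsto_iff_norm_sub_tendsto_zero.mp hf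
      rw [mul_zero, add_zero] at h1
      refine ge_of_tendsto h1 ?_
      filter_upwards [eventually_ge_atTop N] with n hn
      have h2 := sum_ws_le μ F (((u m : carr μ) : Lp ℂ 1 μ) - f) (((u n : carr μ) : Lp ℂ 1 μ) - f)
      rw [sub_sub_sub_cancel_right] at h2
      have h3 : ∑ N ∈ F, ws μ (((u m : carr μ) : Lp ℂ 1 μ) - ((u n : carr μ) : Lp ℂ 1 μ)) N ≤ ε := by
        have h4 : Summable (ws μ ((u m - u n : carr μ) : Lp ℂ 1 μ)) := (u m - u n).2
        have h5 := h4.sum_le_tsum F (fun N _ => ws_nonneg μ _ N)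
        have h6 := hN m hm n hn
        have h7 := norm_nonneg ((u m - u n : carr μ) : Lp ℂ 1 μ)
        rw [Submodule.coe_sub] at h5 h6 h7
        unfold wnorm at h6
        linarith
      linarith
  have hmem : f ∈ carr μ := by
    obtain ⟨N, hN⟩ := key 1 one_pos
    have h1 : ((u N : carr μ) : Lp ℂ 1 μ) - f ∈ carr μ :=
      summable_of_sum_le (ws_nonneg μ _) (hN N le_rfl).2
    have h2 := (carr μ).sub_mem (u N).2 h1
    rwa [sub_sub_cancel] at h2
  refine ⟨⟨f, hmem⟩, ?_⟩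
  rw [Metric.tendsto_atTop]
  intro ε hε
  obtain ⟨N, hN⟩ := key (ε / 3) (by positivity)
  refine ⟨N, fun m hm => ?_⟩
  have h1 := (hN m hm).1
  have h2 : wnorm μ (((u m : carr μ) : Lp ℂ 1 μ) - f) ≤ ε / 3 :=
    Real.tsum_le_of_sum_le (ws_nonneg μ _) (hN m hm).2
  rw [Real.dist_eq, sub_zero, abs_of_nonneg (by have := wnorm_nonneg μ ((u m - ⟨f, hmem⟩ : carr μ) : Lp ℂ 1 μ); positivity)]
  rw [Submodule.coe_sub]
  simp only
  linarith

/-- `phi` of a left average over `U_T`. -/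
theorem phi_avg_eq_zero (j : ℤ) {N : ℕ} {T : Finset (ℤ ⊕ ℕ)} (h : Sum.inr N ∉ T) (f : Lp ℂ 1 μ) :
    phi μ j N ((UU T).avg μ (leftRep μ) f) = 0 := by
  rw [COSub.clm_avg]
  have h2 : ∫ g in ((UU T).H : Set GG), phi μ j N ((leftRep μ).T g f) ∂μ =
      ∫ g in (USub T : Set GG), test j N g * phi μ j N f ∂μ := by
    refine setIntegral_congr_fun (UU T).measurableSet ?_
    intro g hg
    simp only [leftRep_T]
    rw [phi_leftTranslate]
    have h3 : g.n = 0 := hg.1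
    rw [h3, sub_zero]
  rw [h2, integral_mul_const, setIntegral_eq_zero μ (delta_mem h), zero_mul, mul_zero]
  intro g _
  rw [test_mul, delta_n, sub_zero, test, ch_delta_self, ch_delta_ne (by simp)]
  ring

theorem avg_mem_carr (T : Finset (ℤ ⊕ ℕ)) (f : Lp ℂ 1 μ) :
    (UU T).avg μ (leftRep μ) f ∈ carr μ := by
  classical
  obtain ⟨N₀, hN₀⟩ : ∃ N₀ : ℕ, ∀ N ≥ N₀, Sum.inr N ∉ T := by
    refine ⟨(T.sup fun i => Sum.elim (fun _ => 0) id i) + 1, fun N hN hmem => ?_⟩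
    have := Finset.le_sup (f := fun i : ℤ ⊕ ℕ => Sum.elim (fun _ => 0) id i) hmem
    simp only [Sum.elim_inr, id_eq] at this
    omega
  refine mem_carr_of_finite μ N₀ fun N hN => ?_
  refine le_antisymm (sN_le fun j => ?_) (sN_nonneg μ N _)
  rw [phi_avg_eq_zero μ j (hN₀ N hN), norm_zero]

/-- Averages over small subgroups converge strongly. -/
theorem exists_avg_close {E : Type*} [NormedAddCommGroup E] [NormedSpace ℂ E] [CompleteSpace E]
    (ρ : IsoRep GG E) (F : Finset E) {ε : ℝ} (hε : 0 < ε) :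
    ∃ T₀ : Finset (ℤ ⊕ ℕ), ∀ T, T₀ ⊆ T → ∀ e ∈ F, ‖(UU T).avg μ ρ e - e‖ ≤ ε := by
  have h1 : ∀ᶠ g in 𝓝 (1 : GG), ∀ e ∈ F, ‖ρ.T g e - e‖ ≤ ε := by
    rw [Filter.eventually_all_finset]
    intro e _
    have hcont : Continuous fun g => ‖ρ.T g e - e‖ := ((ρ.T_cont e).sub continuous_const).norm
    have h2 := hcont.tendsto 1
    simp only [ρ.T_one, sub_self, norm_zero] at h2
    exact h2.eventually (eventually_le_nhds hε)
  obtain ⟨T₀, hT₀⟩ := exists_USub_subset h1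
  refine ⟨T₀, fun T hT e he => ?_⟩
  exact (UU T).norm_avg_sub_le ρ e fun v hv => hT₀ (USub_anti hT hv) e he

theorem dense_carr : Dense (carr μ : Set (Lp ℂ 1 μ)) := by
  rw [Metric.dense_iff]
  intro f ε hε
  obtain ⟨T, hT⟩ := exists_avg_close μ (leftRep μ) {f} (half_pos hε)
  have h := hT T (Finset.Subset.refl _) f (Finset.mem_singleton_self f)
  refine ⟨(UU T).avg μ (leftRep μ) f, ?_, avg_mem_carr μ T f⟩
  rw [Metric.mem_ball, dist_eq_norm]
  linarith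

theorem tendsto_wnorm_translate {f : Lp ℂ 1 μ} (hf : f ∈ carr μ) (g₀ : GG) :
    Tendsto (fun g => wnorm μ (leftTranslate μ g f - leftTranslate μ g₀ f)) (𝓝 g₀) (𝓝 0) := by
  have h0 : Tendsto (fun g => ‖leftTranslate μ g f - leftTranslate μ g₀ f‖) (𝓝 g₀) (𝓝 0) := by
    have hcont : Continuous fun g => ‖leftTranslate μ g f - leftTranslate μ g₀ f‖ :=
      ((SegalAlgebra.continuous_leftTranslate f).sub continuous_const).norm
    simpa using hcont.tendsto g₀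
  have h1 : Tendsto (fun g => wnorm μ (leftTranslate μ g f - leftTranslate μ g₀ f)) (𝓝 g₀)
      (𝓝 (∑' _ : ℕ, (0 : ℝ))) := by
    unfold wnorm
    refine tendsto_tsum_of_dominated_convergence (bound := fun N => ws μ f N + ws μ f N)
      ((mem_carr μ).mp hf |>.add ((mem_carr μ).mp hf)) ?_ ?_
    · intro N
      have h2 : Tendsto (fun g => 4 ^ N * ‖leftTranslate μ g f - leftTranslate μ g₀ f‖) (𝓝 g₀)
          (𝓝 0) := by simpa using h0.const_mul ((4 : ℝ) ^ N)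
      exact squeeze_zero (fun g => ws_nonneg μ _ N) (fun g => ws_le μ _ N) h2
    · filter_upwards with g N
      rw [Real.norm_of_nonneg (ws_nonneg μ _ N)]
      refine (ws_sub μ _ _ N).trans ?_
      rw [ws_leftTranslate, ws_leftTranslate]
  simpa using h1

/-- The Segal algebra. -/
noncomputable def SA : SegalAlgebra μ where
  carrier := carr μ
  dense' := dense_carr μ
  nrm f := ‖(f : Lp ℂ 1 μ)‖ + wnorm μ (f : Lp ℂ 1 μ)
  nrm_add_le f g := by
    have h1 := norm_add_le (f : Lp ℂ 1 μ) (g : Lp ℂ 1 μ)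
    have h2 := wnorm_add_le f.2 g.2
    rw [Submodule.coe_add]
    linarith
  nrm_smul c f := by
    rw [Submodule.coe_smul, norm_smul, wnorm_smul]; ring
  norm_le_nrm f := by
    have := wnorm_nonneg μ (f : Lp ℂ 1 μ)
    linarith
  complete u hu := complete_aux μ u hu
  translate_mem g f hf := by
    rw [mem_carr, ws_leftTranslate]
    exact hf
  nrm_translate g f := by
    rw [wnorm_leftTranslate, SegalAlgebra.norm_leftTranslate]
  tendsto_translate f g₀ := by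
    have h0 : Tendsto (fun g => ‖leftTranslate μ g (f : Lp ℂ 1 μ) - leftTranslate μ g₀ f‖) (𝓝 g₀)
        (𝓝 0) := by
      have hcont : Continuous fun g => ‖leftTranslate μ g (f : Lp ℂ 1 μ) - leftTranslate μ g₀ f‖ :=
        ((SegalAlgebra.continuous_leftTranslate (f : Lp ℂ 1 μ)).sub continuous_const).norm
      simpa using hcont.tendsto g₀
    have h1 := h0.add (tendsto_wnorm_translate μ f.2 g₀)
    simpa using h1

theorem SA_norm (f : (SA μ).Elem) : ‖f‖ = ‖(SA μ).toL1 f‖ + wnorm μ ((SA μ).toL1 f) := rfl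

end Pool.Agent.Helper87_Segal
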