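import Mathlib
import Pool.Agent.Helper87_Segal.Example

/-!
The bounded left approximate identity and the (unbounded) right approximate identity of the Segal
algebra `SA`.
-/

set_option linter.unusedSectionVars false

open MeasureTheory Topology Filter
open scoped ENNReal

namespace Pool.Agent.Helper87_Segal

open GG

variable (μ : Measure GG) [μ.IsHaarMeasure]

/-- The normalised indicator of `U_T`. -/
noncomputable def kT (T : Finset (ℤ ⊕ ℕ)) : Lp ℂ 1 μ := (UU T).ind μ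

theorem norm_kT (T : Finset (ℤ ⊕ ℕ)) : ‖kT μ T‖ = 1 := (UU T).norm_ind μ

theorem conv_kT (T T' : Finset (ℤ ⊕ ℕ)) : conv (kT μ T) (kT μ T') = kT μ (T ∩ T') :=
  (UU T).conv_ind (UU T') (UU (T ∩ T')) (USub_anti Finset.inter_subset_left)
    (USub_anti Finset.inter_subset_right) USub_comm (USub_split T T')

theorem avg_avg_UU {E : Type*} [NormedAddCommGroup E] [NormedSpace ℂ E] [CompleteSpace E]
    (ρ : IsoRep GG E) (T T' : Finset (ℤ ⊕ ℕ)) (e : E) :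
    (UU T).avg μ ρ ((UU T').avg μ ρ e) = (UU (T ∩ T')).avg μ ρ e :=
  (UU T).avg_avg (UU T') (UU (T ∩ T')) ρ e (USub_anti Finset.inter_subset_left)
    (USub_anti Finset.inter_subset_right) USub_comm (USub_split T T')

/-- The part of `T` in `ℕ`. -/
def natPart (T : Finset (ℤ ⊕ ℕ)) : Finset (ℤ ⊕ ℕ) := T.filter fun i => i.isRight = true

theorem mem_natPart {T : Finset (ℤ ⊕ ℕ)} {i : ℤ ⊕ ℕ} :
    i ∈ natPart T ↔ i ∈ T ∧ i.isRight = true := Finset.mem_filter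

/-- The shifted set. -/
def shSet (M : ℤ) (T : Finset (ℤ ⊕ ℕ)) : Finset (ℤ ⊕ ℕ) := T.image (sh M)

theorem inl_mem_shSet {M j : ℤ} {T : Finset (ℤ ⊕ ℕ)} :
    (Sum.inl (j - M) : ℤ ⊕ ℕ) ∈ shSet M T ↔ (Sum.inl j : ℤ ⊕ ℕ) ∈ T := by
  constructor
  · intro h
    obtain ⟨k, hk, hk2⟩ := Finset.mem_image.mp h
    cases k with
    | inl k =>
      rw [sh_inl, Sum.inl.injEq] at hk2
      have : k = j := by linarith
      rwa [this] at hk
    | inr k => simp at hk2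
  · intro h
    exact Finset.mem_image.mpr ⟨_, h, rfl⟩

theorem inr_mem_shSet {M : ℤ} {N : ℕ} {T : Finset (ℤ ⊕ ℕ)} :
    (Sum.inr N : ℤ ⊕ ℕ) ∈ shSet M T ↔ (Sum.inr N : ℤ ⊕ ℕ) ∈ T := by
  constructor
  · intro h
    obtain ⟨k, hk, hk2⟩ := Finset.mem_image.mp h
    cases k with
    | inl k => simp at hk2
    | inr k =>
      rw [sh_inr, Sum.inr.injEq] at hk2
      rwa [hk2] at hk
  · intro h
    exact Finset.mem_image.mpr ⟨_, h, rfl⟩

theorem exists_shift (T : Finset (ℤ ⊕ ℕ)) : ∃ M : ℤ, shSet M T ∩ T = natPart T := by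
  classical
  set B : ℕ := T.sup fun i => Sum.elim Int.natAbs (fun _ => 0) i with hB
  have hj : ∀ j : ℤ, Sum.inl j ∈ T → j.natAbs ≤ B := fun j hj =>
    Finset.le_sup (f := fun i : ℤ ⊕ ℕ => Sum.elim Int.natAbs (fun _ => 0) i) hj
  refine ⟨2 * B + 1, ?_⟩
  ext i
  rw [Finset.mem_inter, mem_natPart]
  cases i with
  | inl k =>
    simp only [Sum.isRight_inl, Bool.false_eq_true, and_false, iff_false, not_and]
    intro h1 h2
    have h3 : (Sum.inl (k + (2 * B + 1) - (2 * B + 1)) : ℤ ⊕ ℕ) ∈ shSet (2 * B + 1) T := by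
      rwa [add_sub_cancel_right]
    have h4 := hj _ (inl_mem_shSet.mp h3)
    have h5 := hj _ h2
    omega
  | inr N =>
    rw [inr_mem_shSet]
    simp

/-- The elements of the bounded left approximate identity. -/
noncomputable def eL (T : Finset (ℤ ⊕ ℕ)) (M : ℤ) : Lp ℂ 1 μ :=
  kT μ T - leftTranslate μ (yy M) (kT μ (shSet M T) - kT μ (natPart T))

open Classical in
theorem phi_kT (j : ℤ) (N : ℕ) (T : Finset (ℤ ⊕ ℕ)) :
    phi μ j N (kT μ T) = if (Sum.inl j ∈ T ∧ Sum.inr N ∈ T) then 1 else 0 := by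
  by_cases h1 : (Sum.inl j : ℤ ⊕ ℕ) ∈ T
  · by_cases h2 : (Sum.inr N : ℤ ⊕ ℕ) ∈ T
    · rw [if_pos ⟨h1, h2⟩]
      exact phi_ind_of_mem μ h1 h2
    · rw [if_neg (fun h => h2 h.2)]
      exact phi_ind_of_inr_notMem μ h2
  · rw [if_neg (fun h => h1 h.1)]
    exact phi_ind_of_inl_notMem μ h1

theorem phi_eL (j : ℤ) (N : ℕ) (T : Finset (ℤ ⊕ ℕ)) (M : ℤ) : phi μ j N (eL μ T M) = 0 := by
  classical
  rw [eL, map_sub, phi_leftTranslate, test_yy, one_mul, yy_n, map_sub, phi_kT, phi_kT, phi_kT]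
  simp only [inl_mem_shSet, inr_mem_shSet, mem_natPart, Sum.isRight_inl, Bool.false_eq_true,
    and_false, false_and, if_false, sub_zero, sub_self]

theorem sN_eL (N : ℕ) (T : Finset (ℤ ⊕ ℕ)) (M : ℤ) : sN μ N (eL μ T M) = 0 :=
  le_antisymm (sN_le fun j => by rw [phi_eL, norm_zero]) (sN_nonneg μ N _)

theorem eL_mem (T : Finset (ℤ ⊕ ℕ)) (M : ℤ) : eL μ T M ∈ carr μ :=
  mem_carr_of_finite μ 0 fun N _ => sN_eL μ N T M

theorem wnorm_eL (T : Finset (ℤ ⊕ ℕ)) (M : ℤ) : wnorm μ (eL μ T M) = 0 := by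
  have : ws μ (eL μ T M) = fun _ => 0 := by
    funext N
    rw [ws, sN_eL, mul_zero]
  unfold wnorm
  rw [this, tsum_zero]

theorem norm_eL_le (T : Finset (ℤ ⊕ ℕ)) (M : ℤ) : ‖eL μ T M‖ ≤ 3 := by
  unfold eL
  have h1 : ‖kT μ (shSet M T) - kT μ (natPart T)‖ ≤ 2 := by
    refine (norm_sub_le _ _).trans ?_
    rw [norm_kT, norm_kT]; norm_num
  refine (norm_sub_le _ _).trans ?_
  rw [norm_kT, SegalAlgebra.norm_leftTranslate]
  linarith

/-- As an element of the Segal algebra. -/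
noncomputable def eLS (T : Finset (ℤ ⊕ ℕ)) (M : ℤ) : (SA μ).Elem := ⟨eL μ T M, eL_mem μ T M⟩

theorem toL1_eLS (T : Finset (ℤ ⊕ ℕ)) (M : ℤ) : (SA μ).toL1 (eLS μ T M) = eL μ T M := rfl

theorem norm_eLS_le (T : Finset (ℤ ⊕ ℕ)) (M : ℤ) : ‖eLS μ T M‖ ≤ 3 := by
  rw [SA_norm, toL1_eLS, wnorm_eL, add_zero]
  exact norm_eL_le μ T M

theorem mul_eLS (T : Finset (ℤ ⊕ ℕ)) (M : ℤ) (s : (SA μ).Elem) :
    (SA μ).mul (eLS μ T M) s = (UU T).avg μ (SA μ).rep s -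
      (SA μ).rep.T (yy M) ((UU (shSet M T)).avg μ (SA μ).rep s -
        (UU (natPart T)).avg μ (SA μ).rep s) := by
  rw [SegalAlgebra.mul_eq_integ, toL1_eLS, eL]
  have h1 : ∀ f g : Lp ℂ 1 μ, (SA μ).rep.integ (f - g) s =
      (SA μ).rep.integ f s - (SA μ).rep.integ g s := by
    intro f g
    rw [← IsoRep.integL_apply, map_sub, sub_apply]
    rfl
  rw [h1, (SA μ).rep.integ_leftTranslate, h1]
  rfl

theorem hasBddLeftAI : (SA μ).HasBddLeftAI := by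
  refine ⟨3, fun F ε hε => ?_⟩
  obtain ⟨T, hT⟩ := exists_avg_close μ (SA μ).rep F (ε := ε / 3) (by positivity)
  obtain ⟨M, hM⟩ := exists_shift T
  refine ⟨eLS μ T M, norm_eLS_le μ T M, fun s hs => ?_⟩
  have h1 := hT T (Finset.Subset.refl _) s hs
  set s' := (UU T).avg μ (SA μ).rep s with hs'
  have h2 : (UU (shSet M T)).avg μ (SA μ).rep s' = (UU (natPart T)).avg μ (SA μ).rep s := by
    rw [hs', avg_avg_UU, hM]
  have h3 : (UU (natPart T)).avg μ (SA μ).rep s' = (UU (natPart T)).avg μ (SA μ).rep s := by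
    rw [hs', avg_avg_UU]
    congr 2
    ext i
    rw [Finset.mem_inter, mem_natPart]
    tauto
  have hsub : ∀ (T' : Finset (ℤ ⊕ ℕ)) (x y : (SA μ).Elem), (UU T').avg μ (SA μ).rep (x - y) =
      (UU T').avg μ (SA μ).rep x - (UU T').avg μ (SA μ).rep y := by
    intro T' x y
    have := map_sub ((SA μ).rep.integL (μ := μ) ((UU T').ind μ)) x y
    exact this
  have h4 : (UU (shSet M T)).avg μ (SA μ).rep s - (UU (natPart T)).avg μ (SA μ).rep s =
      (UU (shSet M T)).avg μ (SA μ).rep (s - s') - (UU (natPart T)).avg μ (SA μ).rep (s - s') := by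
    rw [hsub, hsub, h2, h3]; abel
  have h5 : ‖(UU (shSet M T)).avg μ (SA μ).rep s - (UU (natPart T)).avg μ (SA μ).rep s‖ ≤
      ε / 3 + ε / 3 := by
    rw [h4]
    have h6 : ‖s - s'‖ ≤ ε / 3 := by rw [norm_sub_rev]; exact h1
    exact (norm_sub_le _ _).trans (add_le_add (((UU _).norm_avg_le _ _).trans h6)
      (((UU _).norm_avg_le _ _).trans h6))
  rw [mul_eLS, ← hs', sub_right_comm]
  refine (norm_sub_le _ _).trans ?_
  rw [(SA μ).rep.norm_T]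
  linarith

/-! ### Right approximate identity -/

theorem exists_conv_close (F : Finset (Lp ℂ 1 μ)) {ε : ℝ} (hε : 0 < ε) :
    ∃ T₀ : Finset (ℤ ⊕ ℕ), ∀ T, T₀ ⊆ T → ∀ a ∈ F, ‖conv a (kT μ T) - a‖ ≤ ε := by
  have h1 : ∀ a ∈ F, ∃ N ∈ 𝓝 (1 : GG), ∀ U : COSub GG, U.H ≤ (UU ∅).H → (U.H : Set GG) ⊆ N →
      ‖conv a (U.ind μ) - a‖ ≤ ε := fun a _ => (UU ∅).exists_nhds_conv_ind a hε
  choose! N hN hN2 using h1
  have h2 : (⋂ a ∈ F, N a) ∈ 𝓝 (1 : GG) := (Filter.biInter_finset_mem F).mpr hN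
  obtain ⟨T₀, hT₀⟩ := exists_USub_subset h2
  refine ⟨T₀, fun T hT a ha => ?_⟩
  refine hN2 a ha (UU T) (USub_anti (Finset.empty_subset T)) ?_
  intro g hg
  have := hT₀ (USub_anti hT hg)
  exact Set.mem_iInter₂.mp this a ha

theorem norm_conv_kT_le (a : Lp ℂ 1 μ) (T : Finset (ℤ ⊕ ℕ)) : ‖conv a (kT μ T)‖ ≤ ‖a‖ := by
  refine ((leftRep μ).norm_integ_le a _).trans ?_
  rw [norm_kT, mul_one]

theorem conv_sub_left (a b c : Lp ℂ 1 μ) : conv (a - b) c = conv a c - conv b c := by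
  exact congrArg (fun L : Lp ℂ 1 μ →L[ℂ] Lp ℂ 1 μ => L c)
    (map_sub ((leftRep μ).integL (μ := μ)) a b)

theorem conv_sub_right (a b c : Lp ℂ 1 μ) : conv a (b - c) = conv a b - conv a c :=
  map_sub ((leftRep μ).integL (μ := μ) a) b c

theorem conv_assoc' (a b c : Lp ℂ 1 μ) : conv (conv a b) c = conv a (conv b c) :=
  (leftRep μ).integ_conv a b c

theorem phi_kT_inter_sub {J' J : Finset (ℤ ⊕ ℕ)} {N : ℕ}
    (h1 : ∀ j : ℤ, Sum.inl j ∈ J' → Sum.inl j ∈ J) (h2 : Sum.inr N ∈ J) (k : ℤ) :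
    phi μ k N (kT μ (J' ∩ J) - kT μ J') = 0 := by
  classical
  rw [map_sub, phi_kT, phi_kT]
  by_cases hk : (Sum.inl k : ℤ ⊕ ℕ) ∈ J'
  · by_cases hN : (Sum.inr N : ℤ ⊕ ℕ) ∈ J'
    · rw [if_pos ⟨Finset.mem_inter.mpr ⟨hk, h1 k hk⟩, Finset.mem_inter.mpr ⟨hN, h2⟩⟩,
        if_pos ⟨hk, hN⟩, sub_self]
    · rw [if_neg (fun h => hN (Finset.mem_inter.mp h.2).1), if_neg (fun h => hN h.2), sub_self]
  · rw [if_neg (fun h => hk (Finset.mem_inter.mp h.1).1), if_neg (fun h => hk h.1), sub_self]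

theorem exists_sN_close (F : Finset (Lp ℂ 1 μ)) (N₀ : ℕ) {η : ℝ} (hη : 0 < η) :
    ∃ J' : Finset (ℤ ⊕ ℕ), ∀ J : Finset (ℤ ⊕ ℕ), (∀ j : ℤ, Sum.inl j ∈ J' → Sum.inl j ∈ J) →
      (∀ N < N₀, Sum.inr N ∈ J) → ∀ a ∈ F, ∀ N < N₀, sN μ N (conv a (kT μ J) - a) ≤ 2 * η := by
  obtain ⟨J', hJ'⟩ := exists_conv_close μ F hη
  refine ⟨J', fun J h1 h2 a ha N hN => ?_⟩
  have h3 := hJ' J' (Finset.Subset.refl _) a ha
  set b := conv a (kT μ J') with hb
  have h4 : conv a (kT μ J) - a = (conv (a - b) (kT μ J) - (a - b)) +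
      conv a (kT μ (J' ∩ J) - kT μ J') := by
    rw [conv_sub_left, conv_sub_right, ← conv_kT, ← conv_assoc', ← hb]
    abel
  rw [h4]
  have h5 : sN μ N (conv a (kT μ (J' ∩ J) - kT μ J')) = 0 :=
    le_antisymm (sN_le fun j => by
      rw [phi_conv_eq_zero μ j N _ _ (phi_kT_inter_sub μ h1 (h2 N hN)), norm_zero])
      (sN_nonneg μ N _)
  have h6 : ‖a - b‖ ≤ η := by rw [norm_sub_rev]; exact h3
  calc sN μ N ((conv (a - b) (kT μ J) - (a - b)) + conv a (kT μ (J' ∩ J) - kT μ J'))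
      ≤ sN μ N (conv (a - b) (kT μ J) - (a - b)) +
        sN μ N (conv a (kT μ (J' ∩ J) - kT μ J')) := sN_add μ N _ _
    _ = sN μ N (conv (a - b) (kT μ J) - (a - b)) := by rw [h5, add_zero]
    _ ≤ ‖conv (a - b) (kT μ J) - (a - b)‖ := sN_le_norm μ N _
    _ ≤ ‖conv (a - b) (kT μ J)‖ + ‖a - b‖ := norm_sub_le _ _
    _ ≤ η + η := add_le_add ((norm_conv_kT_le μ _ _).trans h6) h6
    _ = 2 * η := by ring

theorem sN_kT_eq_zero {T : Finset (ℤ ⊕ ℕ)} {N : ℕ} (h : Sum.inr N ∉ T) : sN μ N (kT μ T) = 0 :=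
  le_antisymm (sN_le fun j => by
    have := phi_ind_of_inr_notMem μ (j := j) h
    rw [kT, this, norm_zero]) (sN_nonneg μ N _)

theorem exists_inr_bound (T : Finset (ℤ ⊕ ℕ)) : ∃ N₀ : ℕ, ∀ N ≥ N₀, Sum.inr N ∉ T := by
  refine ⟨(T.sup fun i => Sum.elim (fun _ => 0) id i) + 1, fun N hN hmem => ?_⟩
  have := Finset.le_sup (f := fun i : ℤ ⊕ ℕ => Sum.elim (fun _ => 0) id i) hmem
  simp only [Sum.elim_inr, id_eq] at this
  omega

theorem kT_mem (T : Finset (ℤ ⊕ ℕ)) : kT μ T ∈ carr μ := by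
  obtain ⟨N₀, hN₀⟩ := exists_inr_bound T
  exact mem_carr_of_finite μ N₀ fun N hN => sN_kT_eq_zero μ (hN₀ N hN)

/-- As an element of the Segal algebra. -/
noncomputable def kTS (T : Finset (ℤ ⊕ ℕ)) : (SA μ).Elem := ⟨kT μ T, kT_mem μ T⟩

theorem toL1_kTS (T : Finset (ℤ ⊕ ℕ)) : (SA μ).toL1 (kTS μ T) = kT μ T := rfl

theorem hasRightAI : (SA μ).HasRightAI := by
  classical
  intro F ε hε
  set F' : Finset (Lp ℂ 1 μ) := F.image (SA μ).toL1 with hF'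
  obtain ⟨J'', hJ''⟩ := exists_conv_close μ F' (ε := ε / 3) (by positivity)
  have htail : ∀ᶠ n in atTop, ∀ a ∈ F, ∑' k, ws μ ((SA μ).toL1 a) (k + n) ≤ ε / 3 := by
    rw [Filter.eventually_all_finset]
    intro a _
    have h1 := tendsto_sum_nat_add (ws μ ((SA μ).toL1 a))
    exact h1.eventually (eventually_le_nhds (by positivity))
  obtain ⟨N₂, hN₂⟩ := exists_inr_bound J''
  obtain ⟨N₀, hN₀, hN₀'⟩ := (htail.and (eventually_ge_atTop N₂)).exists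
  obtain ⟨η, hη, hη2⟩ : ∃ η : ℝ, 0 < η ∧ (∑ N ∈ Finset.range N₀, (4 : ℝ) ^ N) * (2 * η) ≤ ε / 3 := by
    set P : ℝ := ∑ N ∈ Finset.range N₀, (4 : ℝ) ^ N with hP
    have hP0 : 0 ≤ P := Finset.sum_nonneg fun _ _ => by positivity
    refine ⟨ε / (6 * (P + 1)), by positivity, ?_⟩
    rw [show P * (2 * (ε / (6 * (P + 1)))) = (P / (P + 1)) * (ε / 3) by field_simp; ring]
    refine mul_le_of_le_one_left (by positivity) ?_
    rw [div_le_one (by positivity)]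
    linarith
  obtain ⟨J', hJ'⟩ := exists_sN_close μ F' N₀ hη
  set J : Finset (ℤ ⊕ ℕ) := ((J' ∪ J'').filter fun i => i.isLeft = true) ∪
    (Finset.range N₀).image Sum.inr with hJ
  have hJl : ∀ j : ℤ, (Sum.inl j : ℤ ⊕ ℕ) ∈ J ↔ Sum.inl j ∈ J' ∨ Sum.inl j ∈ J'' := by
    intro j
    simp [hJ]
  have hJr : ∀ N : ℕ, (Sum.inr N : ℤ ⊕ ℕ) ∈ J ↔ N < N₀ := by
    intro N
    simp [hJ]
  have hJJ : J'' ⊆ J := by
    intro i hi
    cases i with
    | inl j => exact (hJl j).mpr (Or.inr hi)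
    | inr N =>
      rw [hJr]
      by_contra hcon
      exact hN₂ N (by omega) hi
  refine ⟨kTS μ J, fun a ha => ?_⟩
  have ha' : (SA μ).toL1 a ∈ F' := Finset.mem_image_of_mem _ ha
  rw [SA_norm, map_sub, SegalAlgebra.toL1_mul, toL1_kTS]
  have h1 : ‖conv ((SA μ).toL1 a) (kT μ J) - (SA μ).toL1 a‖ ≤ ε / 3 := hJ'' J hJJ _ ha'
  have hmem : conv ((SA μ).toL1 a) (kT μ J) - (SA μ).toL1 a ∈ carr μ := by
    have h2 : (SA μ).toL1 ((SA μ).mul a (kTS μ J) - a) ∈ carr μ :=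
      ((SA μ).mul a (kTS μ J) - a : (SA μ).Elem).2
    rwa [map_sub, SegalAlgebra.toL1_mul, toL1_kTS] at h2
  have h2 : wnorm μ (conv ((SA μ).toL1 a) (kT μ J) - (SA μ).toL1 a) ≤ ε / 3 + ε / 3 := by
    unfold wnorm
    rw [← ((mem_carr μ).mp hmem).sum_add_tsum_nat_add N₀]
    refine add_le_add ?_ ?_
    · calc ∑ N ∈ Finset.range N₀, ws μ (conv ((SA μ).toL1 a) (kT μ J) - (SA μ).toL1 a) N
          ≤ ∑ N ∈ Finset.range N₀, (4 : ℝ) ^ N * (2 * η) := by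
            refine Finset.sum_le_sum fun N hN => ?_
            refine mul_le_mul_of_nonneg_left ?_ (by positivity)
            exact hJ' J (fun j hj => (hJl j).mpr (Or.inl hj)) (fun N hN => (hJr N).mpr hN) _ ha' N
              (Finset.mem_range.mp hN)
        _ = (∑ N ∈ Finset.range N₀, (4 : ℝ) ^ N) * (2 * η) := by rw [Finset.sum_mul]
        _ ≤ ε / 3 := hη2
    · have h3 : ∀ k, ws μ (conv ((SA μ).toL1 a) (kT μ J) - (SA μ).toL1 a) (k + N₀) =
          ws μ ((SA μ).toL1 a) (k + N₀) := by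
        intro k
        unfold ws sN
        congr 2
        funext j
        have h4 : phi μ j (k + N₀) (conv ((SA μ).toL1 a) (kT μ J)) = 0 := by
          refine phi_conv_eq_zero μ j _ _ _ fun i => ?_
          have h5 : (Sum.inr (k + N₀) : ℤ ⊕ ℕ) ∉ J := fun h => by
            have := (hJr _).mp h
            omega
          exact phi_ind_of_inr_notMem μ h5
        rw [map_sub, h4, zero_sub, norm_neg]
      simp only [h3]
      exact hN₀ a ha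
  linarith

end Pool.Agent.Helper87_Segal
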