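import Mathlib
import Pool.Agent.Helper87_Segal.LeftRight

/-!
The group `GG` has a Reiter sequence, `SA` is a proper Segal algebra, and `SA` is approximately
amenable.
-/

set_option linter.unusedSectionVars false

open MeasureTheory Topology Filter
open scoped ENNReal

namespace Pool.Agent.Helper87_Segal

open GG

universe v

variable (μ : Measure GG) [μ.IsHaarMeasure]

theorem integral_leftTranslate (g : GG) (f : Lp ℂ 1 μ) :
    ∫ x, leftTranslate μ g f x ∂μ = ∫ x, f x ∂μ := by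
  rw [integral_congr_ae (leftTranslate_coeFn μ g f)]
  exact integral_mul_left_eq_self (fun x => f x) g⁻¹

/-- The translates of the normalised indicator of `KK`. -/
noncomputable def qq (i : ℤ) : Lp ℂ 1 μ := leftTranslate μ (yy i) (kT μ ∅)

theorem norm_qq (i : ℤ) : ‖qq μ i‖ = 1 := by
  rw [qq, SegalAlgebra.norm_leftTranslate, norm_kT]

theorem integral_qq (i : ℤ) : ∫ x, qq μ i x ∂μ = 1 := by
  rw [qq, integral_leftTranslate]
  exact (UU ∅).integral_ind μ

theorem leftTranslate_qq (h : GG) (i : ℤ) : leftTranslate μ h (qq μ i) = qq μ (i + h.n) := by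
  have hv : (yy (i + h.n))⁻¹ * (h * yy i) ∈ USub ∅ :=
    ⟨by simp only [mul_n, inv_n, yy_n]; ring, fun _ hi => absurd hi (Finset.notMem_empty _)⟩
  have h1 : h * yy i = yy (i + h.n) * ((yy (i + h.n))⁻¹ * (h * yy i)) := by group
  have h2 : leftTranslate μ ((yy (i + h.n))⁻¹ * (h * yy i)) (kT μ ∅) = kT μ ∅ :=
    (UU ∅).leftTranslate_ind hv
  unfold qq
  have h3 := (leftRep μ).T_mul h (yy i) (kT μ ∅)
  rw [h1, (leftRep μ).T_mul] at h3
  simp only [leftRep_T] at h3
  rw [h2] at h3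
  exact h3.symm

theorem qq_support (i : ℤ) : ∀ᵐ g ∂μ, g.n ≠ i → qq μ i g = 0 := by
  have h1 := leftTranslate_coeFn μ (yy i) (kT μ ∅)
  have h2 : (fun x => kT μ ∅ ((yy i)⁻¹ * x)) =ᵐ[μ]
      fun x => ((UU ∅).H : Set GG).indicator (fun _ => (UU ∅).cst μ) ((yy i)⁻¹ * x) :=
    (measurePreserving_mul_left μ (yy i)⁻¹).quasiMeasurePreserving.ae_eq_comp ((UU ∅).ind_coeFn μ)
  filter_upwards [h1, h2] with g hg hg2 hne
  have h3 : (yy i)⁻¹ * g ∉ ((UU ∅).H : Set GG) := fun h => hne (by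
    have := h.1
    simp only [mul_n, inv_n, yy_n] at this
    linarith)
  unfold qq
  rw [hg, hg2, Set.indicator_of_notMem h3]

/-- Sums of consecutive translates. -/
noncomputable def DD (m : ℕ) (n : ℤ) : Lp ℂ 1 μ := ∑ i ∈ Finset.range (m + 1), qq μ ((i : ℤ) + n)

theorem DD_succ (m : ℕ) (n : ℤ) : DD μ m (n + 1) - DD μ m n = qq μ ((m : ℤ) + 1 + n) - qq μ n := by
  unfold DD
  rw [← Finset.sum_sub_distrib]
  have h1 : ∀ i ∈ Finset.range (m + 1), qq μ ((i : ℤ) + (n + 1)) - qq μ ((i : ℤ) + n) =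
      (fun k : ℕ => qq μ ((k : ℤ) + n)) (i + 1) - (fun k : ℕ => qq μ ((k : ℤ) + n)) i := by
    intro i _
    simp only
    congr 2
    push_cast
    ring
  rw [Finset.sum_congr rfl h1]
  refine (Finset.sum_range_sub (fun k : ℕ => qq μ ((k : ℤ) + n)) (m + 1)).trans ?_
  simp

theorem norm_DD_succ (m : ℕ) (n : ℤ) : ‖DD μ m (n + 1) - DD μ m n‖ ≤ 2 := by
  rw [DD_succ]
  refine (norm_sub_le _ _).trans ?_
  rw [norm_qq, norm_qq]
  norm_num

theorem norm_DD_sub_nat (m k : ℕ) (n : ℤ) : ‖DD μ m (n + k) - DD μ m n‖ ≤ 2 * k := by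
  induction k with
  | zero => simp
  | succ k ih =>
    have h1 := norm_DD_succ μ m (n + k)
    have h2 : DD μ m (n + (k + 1 : ℕ)) - DD μ m n =
        (DD μ m (n + k + 1) - DD μ m (n + k)) + (DD μ m (n + k) - DD μ m n) := by
      rw [show n + ((k + 1 : ℕ) : ℤ) = n + k + 1 by push_cast; ring]
      abel
    rw [h2]
    refine (norm_add_le _ _).trans ?_
    push_cast
    linarith

theorem norm_DD_sub (m : ℕ) (n : ℤ) : ‖DD μ m n - DD μ m 0‖ ≤ 2 * |(n : ℝ)| := by
  rcases Int.eq_nat_or_neg n with ⟨k, rfl | rfl⟩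
  · have := norm_DD_sub_nat μ m k 0
    rw [zero_add] at this
    simpa using this
  · have := norm_DD_sub_nat μ m k (-(k : ℤ))
    rw [neg_add_cancel, norm_sub_rev] at this
    simpa using this

/-- The Reiter sequence. -/
noncomputable def nu (m : ℕ) : Lp ℂ 1 μ := ((m : ℂ) + 1)⁻¹ • DD μ m 0

theorem norm_inv_nat (m : ℕ) : ‖((m : ℂ) + 1)⁻¹‖ = ((m : ℝ) + 1)⁻¹ := by
  rw [norm_inv]
  congr 1
  have : ((m : ℂ) + 1) = ((m + 1 : ℕ) : ℂ) := by push_cast; ring
  rw [this, Complex.norm_natCast]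
  push_cast
  ring

theorem norm_nu_le (m : ℕ) : ‖nu μ m‖ ≤ 1 := by
  rw [nu, norm_smul, norm_inv_nat]
  have h1 : ‖DD μ m 0‖ ≤ (m : ℝ) + 1 := by
    unfold DD
    refine (norm_sum_le _ _).trans ?_
    simp [norm_qq]
  have h2 : (0 : ℝ) < (m : ℝ) + 1 := by positivity
  calc ((m : ℝ) + 1)⁻¹ * ‖DD μ m 0‖ ≤ ((m : ℝ) + 1)⁻¹ * ((m : ℝ) + 1) :=
        mul_le_mul_of_nonneg_left h1 (by positivity)
    _ = 1 := inv_mul_cancel₀ h2.ne'

/-- Integration as a continuous functional. -/
noncomputable def intL : Lp ℂ 1 μ →L[ℂ] ℂ :=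
  pairing μ (fun _ => (1 : ℂ)) measurable_const (fun _ => by simp)

theorem intL_apply (f : Lp ℂ 1 μ) : intL μ f = ∫ x, f x ∂μ := by
  rw [intL, pairing_apply]
  simp

theorem integral_nu (m : ℕ) : ∫ x, nu μ m x ∂μ = 1 := by
  rw [← intL_apply, nu, map_smul, DD, map_sum]
  simp only [intL_apply, integral_qq, Finset.sum_const, Finset.card_range, nsmul_eq_mul, mul_one,
    smul_eq_mul]
  push_cast
  have : ((m : ℂ) + 1) ≠ 0 := by exact_mod_cast Nat.succ_ne_zero m
  exact inv_mul_cancel₀ this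

theorem nu_support (m : ℕ) : ∀ᵐ g ∂μ, g ∉ (⋃ i ∈ Finset.range (m + 1), {g : GG | g.n = (i : ℤ)}) →
    nu μ m g = 0 := by
  have h1 : ∀ᵐ g ∂μ, ∀ i ∈ Finset.range (m + 1), g.n ≠ (i : ℤ) → qq μ (i : ℤ) g = 0 := by
    rw [Filter.eventually_all_finset]
    exact fun i _ => qq_support μ i
  have h2 : (DD μ m 0 : GG → ℂ) =ᵐ[μ] fun g => ∑ i ∈ Finset.range (m + 1), qq μ (i : ℤ) g := by
    unfold DD
    simp only [add_zero]
    induction Finset.range (m + 1) using Finset.induction_on with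
    | empty =>
      simp only [Finset.sum_empty]
      exact Lp.coeFn_zero ℂ 1 μ
    | insert a s ha ih =>
      rw [Finset.sum_insert ha]
      filter_upwards [Lp.coeFn_add (qq μ (a : ℤ)) (∑ i ∈ s, qq μ (i : ℤ)), ih] with g hg hg2
      rw [hg, Pi.add_apply, hg2, Finset.sum_insert ha]
  filter_upwards [h1, h2, Lp.coeFn_smul (((m : ℂ) + 1)⁻¹) (DD μ m 0)] with g hg1 hg2 hg3 hg4
  rw [nu, hg3, Pi.smul_apply, hg2, Finset.sum_eq_zero, smul_zero]
  intro i hi
  refine hg1 i hi fun h => hg4 ?_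
  exact Set.mem_iUnion₂.mpr ⟨i, hi, h⟩

theorem hasReiter : HasReiter μ := by
  refine ⟨nu μ, norm_nu_le μ, integral_nu μ, fun m => ?_, fun h => ?_⟩
  · exact ⟨_, (Finset.range (m + 1)).isCompact_biUnion fun i _ => isCompact_level i, nu_support μ m⟩
  · have h1 : ∀ m, leftTranslate μ h (nu μ m) - nu μ m =
        ((m : ℂ) + 1)⁻¹ • (DD μ m h.n - DD μ m 0) := by
      intro m
      have h2 : leftTranslate μ h (DD μ m 0) = DD μ m h.n := by
        unfold DD
        rw [← leftRep_T, map_sum]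
        refine Finset.sum_congr rfl fun i _ => ?_
        rw [leftRep_T, leftTranslate_qq, add_zero]
      rw [nu, ← leftRep_T, map_smul, leftRep_T, h2, smul_sub]
    have h3 : ∀ m, ‖leftTranslate μ h (nu μ m) - nu μ m‖ ≤ 2 * |(h.n : ℝ)| * (1 / ((m : ℝ) + 1)) := by
      intro m
      rw [h1, norm_smul, norm_inv_nat, one_div, mul_comm]
      exact mul_le_mul_of_nonneg_right (norm_DD_sub μ m h.n) (by positivity)
    refine squeeze_zero (fun _ => norm_nonneg _) h3 ?_
    simpa using tendsto_one_div_add_atTop_nhds_zero_nat.const_mul (2 * |(h.n : ℝ)|)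

/-! ### Properness -/

/-- The functions witnessing properness. -/
noncomputable def FN (N : ℕ) (g : GG) : ℂ :=
  (USub ∅ : Set GG).indicator (fun g => (UU ∅).cst μ * test 0 N g) g

theorem integrable_FN (N : ℕ) : Integrable (FN μ N) μ := by
  unfold FN
  have hc : Continuous fun g => (UU ∅).cst μ * test 0 N g := continuous_const.mul (continuous_test 0 N)
  exact (integrable_indicator_iff (isOpen_USub ∅).measurableSet).mpr
    (hc.continuousOn.integrableOn_compact (isCompact_USub ∅))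

/-- As elements of `L¹`. -/
noncomputable def fN (N : ℕ) : Lp ℂ 1 μ := (integrable_FN μ N).toL1 (FN μ N)

theorem norm_fN_le (N : ℕ) : ‖fN μ N‖ ≤ 1 := by
  rw [L1.norm_eq_integral_norm]
  have h1 : ∫ x, ‖fN μ N x‖ ∂μ = ∫ x, ‖(UU ∅).ind μ x‖ ∂μ := by
    refine integral_congr_ae ?_
    filter_upwards [Integrable.coeFn_toL1 (integrable_FN μ N), (UU ∅).ind_coeFn μ] with x hx hx2
    rw [fN, hx, hx2, FN]
    by_cases h : x ∈ (USub ∅ : Set GG)
    · have h' : x ∈ ((UU ∅).H : Set GG) := h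
      rw [Set.indicator_of_mem h, Set.indicator_of_mem h', norm_mul, norm_test, mul_one]
    · have h' : x ∉ ((UU ∅).H : Set GG) := h
      rw [Set.indicator_of_notMem h, Set.indicator_of_notMem h']
  rw [h1, ← L1.norm_eq_integral_norm, (UU ∅).norm_ind]

theorem phi_fN (M N : ℕ) : phi μ 0 M (fN μ N) = if M = N then 1 else 0 := by
  have h1 : phi μ 0 M (fN μ N) =
      (UU ∅).cst μ * ∫ g in (USub ∅ : Set GG), test 0 N g * test 0 M g ∂μ := by
    rw [phi_apply, ← integral_const_mul, ← integral_indicator (isOpen_USub ∅).measurableSet]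
    refine integral_congr_ae ?_
    filter_upwards [Integrable.coeFn_toL1 (integrable_FN μ N)] with x hx
    rw [fN, hx, FN]
    by_cases h : x ∈ (USub ∅ : Set GG)
    · rw [Set.indicator_of_mem h, Set.indicator_of_mem h, mul_assoc]
    · rw [Set.indicator_of_notMem h, Set.indicator_of_notMem h, zero_mul]
  rw [h1]
  by_cases hMN : M = N
  · subst hMN
    rw [if_pos rfl]
    have h2 : ∫ g in (USub ∅ : Set GG), test 0 M g * test 0 M g ∂μ =
        ∫ _ in (USub ∅ : Set GG), (1 : ℂ) ∂μ := by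
      refine setIntegral_congr_fun (isOpen_USub ∅).measurableSet ?_
      intro g _
      simp only [test]
      linear_combination ch (Sum.inr M) g * ch (Sum.inr M) g * ch_mul_self (Sum.inl 0) g +
        ch_mul_self (Sum.inr M) g
    rw [h2]
    exact (UU ∅).cst_smul_const (μ := μ) (1 : ℂ)
  · rw [if_neg hMN, setIntegral_eq_zero μ (v := delta (Sum.inr M)) (T := ∅)
      ⟨rfl, fun _ hi => absurd hi (Finset.notMem_empty _)⟩, mul_zero]
    intro g _
    have h3 : test 0 N (delta (Sum.inr M) * g) = test 0 N g := by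
      rw [test_mul, delta_n, sub_zero, test, ch_delta_ne (by simp),
        ch_delta_ne (by simpa using Ne.symm hMN)]
      ring
    have h4 : test 0 M (delta (Sum.inr M) * g) = -test 0 M g := by
      rw [test_mul, delta_n, sub_zero, test, ch_delta_self, ch_delta_ne (by simp)]
      ring
    rw [h3, h4]
    ring

theorem isProper : (SA μ).IsProper := by
  intro htop
  have hs : Summable fun N : ℕ => (1 / 2 : ℂ) ^ N • fN μ N := by
    refine Summable.of_norm_bounded (g := fun N : ℕ => (1 / 2 : ℝ) ^ N) summable_geometric_two ?_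
    intro N
    rw [norm_smul, norm_pow]
    have h1 : ‖(1 / 2 : ℂ)‖ = 1 / 2 := by simp
    rw [h1]
    exact mul_le_of_le_one_right (by positivity) (norm_fN_le μ N)
  set f : Lp ℂ 1 μ := ∑' N : ℕ, (1 / 2 : ℂ) ^ N • fN μ N with hf
  have hphi : ∀ M : ℕ, phi μ 0 M f = (1 / 2 : ℂ) ^ M := by
    intro M
    rw [hf, (phi μ 0 M).map_tsum hs, tsum_eq_single M]
    · rw [map_smul, phi_fN, if_pos rfl, smul_eq_mul, mul_one]
    · intro N hN
      rw [map_smul, phi_fN, if_neg (Ne.symm hN), smul_zero]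
  have hmem : f ∈ carr μ := by
    have h1 : (SA μ).carrier = carr μ := rfl
    rw [h1] at htop
    rw [htop]
    exact Submodule.mem_top
  have h0 : Tendsto (ws μ f) atTop (𝓝 0) := ((mem_carr μ).mp hmem).tendsto_atTop_zero
  obtain ⟨M, hM⟩ := (h0.eventually (gt_mem_nhds (one_pos (α := ℝ)))).exists
  have h1 : (1 : ℝ) ≤ ws μ f M := by
    have h2 := norm_phi_le_sN μ 0 M f
    rw [hphi, norm_pow] at h2
    have h3 : ‖(1 / 2 : ℂ)‖ = 1 / 2 := by simp
    rw [h3] at h2
    calc (1 : ℝ) ≤ 2 ^ M := one_le_pow₀ (by norm_num)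
      _ = 4 ^ M * (1 / 2) ^ M := by rw [← mul_pow]; norm_num
      _ ≤ ws μ f M := mul_le_mul_of_nonneg_left h2 (by positivity)
  linarith

/-- The Segal algebra `SA` is approximately amenable. -/
theorem SA_isApproximatelyAmenable : SegalAlgebra.IsApproximatelyAmenable.{0, v} (SA μ) :=
  (SA μ).isApproximatelyAmenable_of (hasBddLeftAI μ) (hasRightAI μ) (hasReiter μ)

end Pool.Agent.Helper87_Segal
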