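import Mathlib
import Pool.Agent.Helper87_Segal.Final

/-!
The Segal algebra as a Mathlib normed ring.
-/

set_option linter.unusedSectionVars false

open MeasureTheory Topology Filter
open scoped ENNReal

namespace Pool.Agent.Helper87_Segal

universe u v

variable {G : Type u} [Group G] [TopologicalSpace G] [IsTopologicalGroup G] [LocallyCompactSpace G]
  [T2Space G] [SecondCountableTopology G] [MeasurableSpace G] [BorelSpace G]

namespace SegalAlgebra

variable {μ : Measure G} [μ.IsHaarMeasure] (S : SegalAlgebra μ)

/-- The Segal algebra as a Banach algebra (a copy of `S.Elem`). -/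
def Alg : Type _ := S.Elem

/-- The Segal algebra with convolution as a normed ring. -/
noncomputable instance instNormedRingAlg : NonUnitalNormedRing S.Alg :=
  { (inferInstance : NormedAddCommGroup S.Elem) with
    mul := S.mul
    left_distrib := fun a b c => S.mul_add' a b c
    right_distrib := fun a b c => S.add_mul' a b c
    zero_mul := fun a => by
      change S.mul 0 a = 0
      rw [← mulL_apply]; simp
    mul_zero := fun a => by
      change S.mul a 0 = 0
      rw [← mulL_apply]; simp
    mul_assoc := fun a b c => S.mul_assoc' a b c
    norm_mul_le := fun a b => S.norm_mul_le a b }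

noncomputable instance instNormedSpaceAlg : NormedSpace ℂ S.Alg :=
  (inferInstance : NormedSpace ℂ S.Elem)

instance instCompleteSpaceAlg : CompleteSpace S.Alg := (inferInstance : CompleteSpace S.Elem)

end SegalAlgebra

end Pool.Agent.Helper87_Segal
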